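import Mathlib

/-!
# Complete intersections of diagonal quadrics: definitions
-/

open MvPolynomial

namespace Pool.Agent.Work.MP_fcfa67_h90

/-- The diagonal quadratic forms `∑ j, a i j * y j ^ 2` in `N + 1` variables, one for each of the
`r` rows of the matrix `a`. -/
def quadrics {k : Type*} [Field k] {r N : ℕ} (a : Matrix (Fin r) (Fin (N + 1)) k) :
    Set (MvPolynomial (Fin (N + 1)) k) :=
  Set.range fun i => ∑ j, C (a i j) * X j ^ 2

/-- The intersection of the `r` quadrics `∑ j, a i j * y j ^ 2 = 0` is a smooth complete
intersection (Jacobian criterion): at every geometric point of it the gradients of the `r` forms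
are linearly independent. -/
def SmoothQuadrics {k : Type*} [Field k] {r N : ℕ} (a : Matrix (Fin r) (Fin (N + 1)) k) : Prop :=
  ∀ v : Fin (N + 1) → AlgebraicClosure k, v ≠ 0 →
    (∀ i, ∑ j, algebraMap k (AlgebraicClosure k) (a i j) * v j ^ 2 = 0) →
    LinearIndependent (AlgebraicClosure k)
      (fun (i : Fin r) (j : Fin (N + 1)) => 2 * algebraMap k (AlgebraicClosure k) (a i j) * v j)

end Pool.Agent.Work.MP_fcfa67_h90
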