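import Pool.Agent.Work.MP_fcfa67_h90.Hyper

/-!
# Anisotropic forms over number fields
-/

open MvPolynomial

namespace Pool.Agent.Work.MP_fcfa67_h90

/-- A number field contains elements which are not powers. -/
theorem exists_nonpower (k : Type) [Field k] [NumberField k] :
    ∃ (c : k) (q : ℕ), 1 ≤ q ∧ ∀ y : k, y ^ q ≠ c := by
  refine ⟨2, Module.finrank ℚ k + 1, by omega, fun y hy => ?_⟩
  have hd : 0 < Module.finrank ℚ k := Module.finrank_pos
  have h1 : (Algebra.norm ℚ y) ^ (Module.finrank ℚ k + 1) = 2 ^ Module.finrank ℚ k := by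
    rw [← map_pow, hy]
    have h2 : (2 : k) = algebraMap ℚ k 2 := by simp
    rw [h2, Algebra.norm_algebraMap]
  have hy0 : Algebra.norm ℚ y ≠ 0 := by
    intro h0
    rw [h0, zero_pow (Nat.succ_ne_zero _)] at h1
    exact pow_ne_zero _ two_ne_zero h1.symm
  have h2 := congrArg (padicValRat 2) h1
  rw [padicValRat.pow, padicValRat.pow] at h2
  have h3 : padicValRat 2 (2 : ℚ) = 1 := by
    have := padicValRat.self (p := 2) one_lt_two
    simpa using this
  rw [h3, mul_one] at h2
  have h4 : ((Module.finrank ℚ k + 1 : ℕ) : ℤ) ∣ (Module.finrank ℚ k : ℤ) := Dvd.intro _ h2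
  have h5 : (Module.finrank ℚ k + 1) ∣ Module.finrank ℚ k := by exact_mod_cast h4
  have h6 := Nat.le_of_dvd hd h5
  omega

/-- Anisotropic forms in any number of variables exist. -/
theorem exists_aniso (k : Type) [Field k] [NumberField k] (n : ℕ) :
    ∃ (e : ℕ) (N : MvPolynomial (Fin n) k), 2 ≤ e ∧ N.IsHomogeneous e ∧
      ∀ v : Fin n → k, aeval v N = 0 → v = 0 := by
  obtain ⟨c, q, hq, hc⟩ := exists_nonpower k
  induction n with
  | zero => exact ⟨2, 0, le_rfl, isHomogeneous_zero _ _ _, fun v _ => Subsingleton.elim _ _⟩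
  | succ n ih =>
    obtain ⟨e, N, he, hN, hv⟩ := ih
    refine ⟨e * q, X 0 ^ (e * q) - C c * rename Fin.succ N ^ q,
      he.trans (Nat.le_mul_of_pos_right e hq), ?_, ?_⟩
    · apply IsHomogeneous.sub
      · have := (isHomogeneous_X k (0 : Fin (n + 1))).pow (e * q)
        rwa [one_mul] at this
      · have h1 := (isHomogeneous_C (Fin (n + 1)) c).mul
          ((hN.rename_isHomogeneous (f := Fin.succ)).pow q)
        rwa [zero_add] at h1
    · intro v h
      rw [map_sub, map_mul, map_pow, map_pow, aeval_X, aeval_C, aeval_rename, sub_eq_zero,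
        pow_mul] at h
      have h1 : aeval (v ∘ Fin.succ) N = 0 := by
        by_contra hne
        apply hc (v 0 ^ e / aeval (v ∘ Fin.succ) N)
        rw [div_pow, h]
        exact mul_div_cancel_right₀ c (pow_ne_zero q hne)
      have h2 := hv _ h1
      rw [h1, zero_pow (by omega), mul_zero, ← pow_mul] at h
      have h3 : v 0 = 0 := eq_zero_of_pow_eq_zero h
      funext i
      refine Fin.cases h3 (fun j => ?_) i
      exact congrFun h2 j

/-- An anisotropic form remains anisotropic over the ring of polynomials. -/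
theorem aniso_poly {k : Type} [Field k] [Infinite k] {n : ℕ} {N : MvPolynomial (Fin n) k}
    (hN : ∀ v : Fin n → k, aeval v N = 0 → v = 0) (g : Fin n → Polynomial k)
    (hg : aeval g N = 0) : g = 0 := by
  funext i
  apply Polynomial.funext
  intro a
  have h1 : aeval (fun i => Polynomial.eval a (g i)) N = 0 := by
    have h2 := congrArg (Polynomial.aeval a : Polynomial k →ₐ[k] k) hg
    rw [map_zero, ← AlgHom.comp_apply, comp_aeval] at h2
    exact h2
  have h2 := congrFun (hN _ h1) i
  rw [Pi.zero_apply, Polynomial.eval_zero]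
  exact h2

/-- The equations of the compactification with one point at infinity (over the base field). -/
def SCpt {k : Type} [Field k] {n : ℕ} (S : Set (MvPolynomial (Fin (n + 1)) k))
    (N : MvPolynomial (Fin n) k) (e : ℕ) : Set (MvPolynomial (Fin (n + 1 + 1)) k) :=
  {P | (∃ F ∈ S, P = rename Fin.castSucc F) ∨
    P = X (Fin.last (n + 1)) * X (Fin.castSucc 0) ^ e -
      rename Fin.castSucc (rename Fin.succ N)}

theorem SCpt_homogeneous {k : Type} [Field k] {n : ℕ} {S : Set (MvPolynomial (Fin (n + 1)) k)}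
    (hS : ∀ F ∈ S, ∃ e, F.IsHomogeneous e) {N : MvPolynomial (Fin n) k} {e : ℕ}
    (hN : N.IsHomogeneous (e + 1)) : ∀ P ∈ SCpt S N e, ∃ e, P.IsHomogeneous e := by
  rintro P (⟨F, hF, rfl⟩ | rfl)
  · obtain ⟨f, hf⟩ := hS F hF
    exact ⟨f, hf.rename_isHomogeneous⟩
  · refine ⟨e + 1, IsHomogeneous.sub ?_ ?_⟩
    · have h1 := (isHomogeneous_X k (Fin.last (n + 1))).mul
        ((isHomogeneous_X k (Fin.castSucc (0 : Fin (n + 1)))).pow e)
      rwa [one_mul, add_comm 1 e] at h1
    · exact (hN.rename_isHomogeneous (f := Fin.succ)).rename_isHomogeneous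

theorem curve_cpt {k : Type} [Field k] [Infinite k] {n : ℕ}
    {S : Set (MvPolynomial (Fin (n + 1)) k)} {N : MvPolynomial (Fin n) k} {e : ℕ}
    (he : 1 ≤ e) (hN : N.IsHomogeneous (e + 1)) (han : ∀ v : Fin n → k, aeval v N = 0 → v = 0)
    (h : HasRationalCurve (SCpt S N e) {1}) : HasRationalCurve S {X 0} := by
  obtain ⟨g, hg, hgS, -⟩ := h
  set x : Fin (n + 1) → Polynomial k := g ∘ Fin.castSucc with hx
  have hS' : ∀ F ∈ S, aeval x F = 0 := by
    intro F hF
    have := hgS _ (Or.inl ⟨F, hF, rfl⟩)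
    rwa [aeval_rename] at this
  have hu : g (Fin.last (n + 1)) * x 0 ^ e = aeval (x ∘ Fin.succ) N := by
    have := hgS _ (Or.inr rfl)
    rw [map_sub, map_mul, map_pow, aeval_X, aeval_X, aeval_rename, aeval_rename,
      sub_eq_zero] at this
    exact this
  have hx0 : x 0 ≠ 0 := by
    intro h0
    have h1 : x ∘ Fin.succ = 0 := by
      apply aniso_poly han
      rw [← hu, h0, zero_pow (by omega), mul_zero]
    apply hg
    refine ⟨Fin.snoc (α := fun _ => k) 0 1, g (Fin.last (n + 1)), fun j => ?_⟩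
    refine Fin.lastCases ?_ (fun i => ?_) j
    · rw [Fin.snoc_last, Polynomial.C_1, one_mul]
    · rw [Fin.snoc_castSucc, Pi.zero_apply, Polynomial.C_0, zero_mul]
      refine Fin.cases h0 (fun l => ?_) i
      exact congrFun h1 l
  refine ⟨x, ?_, hS', X 0, rfl, by rw [aeval_X]; exact hx0⟩
  rintro ⟨v, u, hvu⟩
  have hu0 : u ≠ 0 := by
    rintro rfl
    apply hx0
    rw [hvu, mul_zero]
  have hv0 : v 0 ≠ 0 := by
    intro h0
    apply hx0
    rw [hvu, h0, Polynomial.C_0, zero_mul]
  have hNv : aeval (x ∘ Fin.succ) N = u ^ (e + 1) * Polynomial.C (aeval (v ∘ Fin.succ) N) := by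
    have h1 : x ∘ Fin.succ = fun i => u * Polynomial.C (v (Fin.succ i)) :=
      funext fun i => by rw [Function.comp_apply, hvu, mul_comm]
    rw [h1, aeval_smul_hom hN]
    congr 1
    have h2 := aeval_algebraMap_apply (Polynomial k) (v ∘ Fin.succ) N
    rw [Polynomial.algebraMap_eq] at h2
    exact h2
  apply hg
  refine ⟨Fin.snoc (α := fun _ => k) v (aeval (v ∘ Fin.succ) N / v 0 ^ e), u, fun j => ?_⟩
  refine Fin.lastCases ?_ (fun i => ?_) j
  · rw [Fin.snoc_last]
    have hC0 : Polynomial.C (v 0 ^ e) ≠ 0 := fun h0 => pow_ne_zero e hv0 (by simpa using h0)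
    apply mul_right_cancel₀ (mul_ne_zero (pow_ne_zero e hu0) hC0)
    have h2 : Polynomial.C (aeval (v ∘ Fin.succ) N / v 0 ^ e) * Polynomial.C (v 0 ^ e) =
        Polynomial.C (aeval (v ∘ Fin.succ) N) := by
      rw [← Polynomial.C_mul, div_mul_cancel₀ _ (pow_ne_zero e hv0)]
    have h3 : g (Fin.last (n + 1)) * (u ^ e * Polynomial.C (v 0 ^ e)) =
        u ^ (e + 1) * Polynomial.C (aeval (v ∘ Fin.succ) N) := by
      rw [← hNv, ← hu, hvu, mul_pow, Polynomial.C_pow]
      ring
    rw [h3]
    linear_combination -(u ^ (e + 1)) * h2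
  · rw [Fin.snoc_castSucc]
    exact hvu i

end Pool.Agent.Work.MP_fcfa67_h90
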