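import Mathlib

/-!
# The forms used to embed a projective variety in a smooth hypersurface
-/

open MvPolynomial

namespace Pool.Agent.Work.MP_fcfa67_h90

/-- The inclusion of the first variables. -/
def incl {n M : ℕ} (h : n ≤ M) (i : Fin (n + 1)) : Fin (2 * M + 1 + 1) := ⟨i, by omega⟩

/-- Extension of a vector by zero. -/
def ext0 {R : Type*} [Zero R] {n : ℕ} (M : ℕ) (v : Fin (n + 1) → R) : Fin (2 * M + 1 + 1) → R :=
  fun i => if h : (i : ℕ) < n + 1 then v ⟨i, h⟩ else 0

theorem ext0_incl {R : Type*} [Zero R] {n M : ℕ} (h : n ≤ M) (v : Fin (n + 1) → R)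
    (i : Fin (n + 1)) : ext0 M v (incl h i) = v i := by
  unfold ext0 incl
  exact dif_pos i.2

theorem ext0_zero {R : Type*} [Zero R] {n M : ℕ} (v : Fin (n + 1) → R)
    (i : Fin (2 * M + 1 + 1)) (hi : ¬ (i : ℕ) < n + 1) : ext0 M v i = 0 := by
  unfold ext0
  simp [hi]

section gens

variable {K : Type} [Field K] {n M : ℕ}

/-- The generators of the ideal of the variety in the larger space. -/
noncomputable def baseGen (h : n ≤ M) (T : Finset (MvPolynomial (Fin (n + 1)) K)) (dg : T → ℕ)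
    (e : ℕ) : Fin (2 * M + 1 + 1) × (T ⊕ Fin (2 * M + 1 + 1)) →
      MvPolynomial (Fin (2 * M + 1 + 1)) K
  | (l, Sum.inl G) => X l ^ (e - dg G) * rename (incl h) G.1
  | (l, Sum.inr j) => if (j : ℕ) < n + 1 then 0 else X l ^ (e - 1) * X j

theorem baseGen_inl (h : n ≤ M) (T : Finset (MvPolynomial (Fin (n + 1)) K)) (dg : T → ℕ)
    (e : ℕ) (l : Fin (2 * M + 1 + 1)) (G : T) :
    baseGen h T dg e (l, Sum.inl G) = X l ^ (e - dg G) * rename (incl h) G.1 := rfl

theorem baseGen_inr (h : n ≤ M) (T : Finset (MvPolynomial (Fin (n + 1)) K)) (dg : T → ℕ)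
    (e : ℕ) (l j : Fin (2 * M + 1 + 1)) :
    baseGen h T dg e (l, Sum.inr j) = if (j : ℕ) < n + 1 then 0 else X l ^ (e - 1) * X j := rfl

theorem baseGen_homogeneous (h : n ≤ M) (T : Finset (MvPolynomial (Fin (n + 1)) K)) (dg : T → ℕ)
    (hdg : ∀ G : T, G.1.IsHomogeneous (dg G)) (e : ℕ) (he : ∀ G, dg G ≤ e) (he1 : 1 ≤ e)
    (c : Fin (2 * M + 1 + 1) × (T ⊕ Fin (2 * M + 1 + 1))) :
    (baseGen h T dg e c).IsHomogeneous e := by
  obtain ⟨l, G | j⟩ := c
  · have h1 := ((isHomogeneous_X K l).pow (e - dg G)).mul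
      ((hdg G).rename_isHomogeneous (f := incl (M := M) h))
    have h2 : 1 * (e - dg G) + dg G = e := by have := he G; omega
    rw [h2] at h1
    exact h1
  · rw [baseGen_inr]
    split_ifs with hj
    · exact isHomogeneous_zero _ _ _
    · have h1 := ((isHomogeneous_X K l).pow (e - 1)).mul (isHomogeneous_X K j)
      have h2 : 1 * (e - 1) + 1 = e := by omega
      rw [h2] at h1
      exact h1

end gens

end Pool.Agent.Work.MP_fcfa67_h90
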