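import Pool.Agent.Work.MP_f82ddf_nt.Red.GenPts

/-!
# Siegel's lemma over a polynomial ring, and general position over a polynomial ring
-/

open Polynomial Pool.Agent.Work.MP_f82ddf_nt

namespace Pool.Agent.Work.MP_fcfa67_h90

variable {K : Type*} [Field K]

/-- The polynomial with given coefficients. -/
noncomputable def polyOf (T : ℕ) : (Fin (T + 1) → K) →ₗ[K] K[X] where
  toFun y := ∑ c : Fin (T + 1), C (y c) * X ^ (c : ℕ)
  map_add' x y := by
    rw [← Finset.sum_add_distrib]
    refine Finset.sum_congr rfl fun c _ => ?_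
    rw [Pi.add_apply, C_add]
    ring
  map_smul' a x := by
    rw [Finset.smul_sum]
    refine Finset.sum_congr rfl fun c _ => ?_
    rw [Pi.smul_apply, smul_eq_mul, C_mul, smul_eq_C_mul]
    simp only [RingHom.id_apply]
    ring

theorem polyOf_natDegree (T : ℕ) (y : Fin (T + 1) → K) : (polyOf T y).natDegree ≤ T := by
  show (∑ c : Fin (T + 1), C (y c) * X ^ (c : ℕ)).natDegree ≤ T
  apply natDegree_sum_le_of_forall_le
  intro c _
  refine (natDegree_C_mul_X_pow_le _ _).trans ?_
  omega

theorem polyOf_coeff (T : ℕ) (y : Fin (T + 1) → K) (c : Fin (T + 1)) :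
    (polyOf T y).coeff c = y c := by
  show (∑ c : Fin (T + 1), C (y c) * X ^ (c : ℕ)).coeff c = y c
  rw [finsetSum_coeff]
  simp only [coeff_C_mul_X_pow]
  rw [Finset.sum_eq_single c]
  · simp
  · intro b _ hb
    rw [if_neg]
    intro h
    exact hb (Fin.ext h.symm)
  · intro h
    exact absurd (Finset.mem_univ _) h

theorem siegel {N : ℕ} {R : Type*} (D : ℕ) (ρ : R → Fin (N + 1) → K[X])
    (hρ : ∀ r a, (ρ r a).natDegree ≤ D) (g : Fin (N + 1) → K[X]) (hg : g ≠ 0)
    (hzero : ∀ r, ∑ a, ρ r a * g a = 0) :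
    ∃ y : Fin (N + 1) → K[X], y ≠ 0 ∧ (∀ a, (y a).natDegree ≤ N * D) ∧
      ∀ r, ∑ a, ρ r a * y a = 0 := by
  classical
  let F := FractionRing K[X]
  let v : R → Fin (N + 1) → F := fun r a => algebraMap K[X] F (ρ r a)
  have hinj : Function.Injective (algebraMap K[X] F) := IsFractionRing.injective K[X] F
  -- the functional attached to a vector
  let fn : (Fin (N + 1) → K[X]) → ((Fin (N + 1) → F) →ₗ[F] F) := fun y =>
    ∑ a, (algebraMap K[X] F (y a)) • LinearMap.proj a
  have hfn : ∀ y w, fn y w = ∑ a, w a * algebraMap K[X] F (y a) := by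
    intro y w
    simp only [fn, LinearMap.sum_apply, LinearMap.smul_apply, LinearMap.proj_apply, smul_eq_mul]
    exact Finset.sum_congr rfl fun a _ => mul_comm _ _
  have hfv : ∀ y r, fn y (v r) = algebraMap K[X] F (∑ a, ρ r a * y a) := by
    intro y r
    rw [hfn, map_sum]
    exact Finset.sum_congr rfl fun a _ => (map_mul _ _ _).symm
  have hfg : fn g ≠ 0 := by
    intro h0
    apply hg
    funext a
    have h1 := hfn g (Pi.single a 1)
    rw [h0, LinearMap.zero_apply, Finset.sum_eq_single a] at h1
    · rw [Pi.single_eq_same, one_mul] at h1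
      exact hinj (by rw [← h1, Pi.zero_apply, map_zero])
    · intro b _ hb
      rw [Pi.single_eq_of_ne hb, zero_mul]
    · intro h
      exact absurd (Finset.mem_univ _) h
  set W := Submodule.span F (Set.range v) with hW
  have hWle : W ≤ LinearMap.ker (fn g) := by
    rw [hW, Submodule.span_le]
    rintro _ ⟨r, rfl⟩
    show fn g (v r) = 0
    rw [hfv, hzero, map_zero]
  have hker : LinearMap.ker (fn g) ≠ ⊤ := fun h => hfg (LinearMap.ker_eq_top.1 h)
  have hfin : Module.finrank F W ≤ N := by
    have h1 := Submodule.finrank_lt hker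
    have h2 := Submodule.finrank_mono hWle
    rw [Module.finrank_fin_fun] at h1
    omega
  obtain ⟨f, hf, hspan, -⟩ := Submodule.exists_fun_fin_finrank_span_eq F (Set.range v)
  choose ri hri using hf
  -- the linear system
  let Y : (Fin (N + 1) → Fin (N * D + 1) → K) → Fin (N + 1) → K[X] := fun y a =>
    polyOf (N * D) (y a)
  let Φ : (Fin (N + 1) → Fin (N * D + 1) → K) →ₗ[K]
      (Fin (Module.finrank F (Submodule.span F (Set.range v))) → Fin (N * D + D + 1) → K) :=
    { toFun := fun y i c => (∑ a, ρ (ri i) a * polyOf (N * D) (y a)).coeff c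
      map_add' := by
        intro x y
        funext i c
        simp only [Pi.add_apply, map_add, mul_add, Finset.sum_add_distrib, coeff_add]
      map_smul' := by
        intro a x
        funext i c
        simp only [Pi.smul_apply, map_smul, mul_smul_comm, ← Finset.smul_sum, coeff_smul,
          RingHom.id_apply] }
  have hlt : Module.finrank K
      (Fin (Module.finrank F (Submodule.span F (Set.range v))) → Fin (N * D + D + 1) → K) <
      Module.finrank K (Fin (N + 1) → Fin (N * D + 1) → K) := by
    have hfr : ∀ a b : ℕ, Module.finrank K (Fin a → Fin b → K) = a * b := by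
      intro a b
      rw [Module.finrank_pi_fintype]
      simp only [Module.finrank_fin_fun, Finset.sum_const, Finset.card_univ, Fintype.card_fin,
        smul_eq_mul]
    rw [hfr, hfr]
    calc Module.finrank F (Submodule.span F (Set.range v)) * (N * D + D + 1)
        ≤ N * (N * D + D + 1) := Nat.mul_le_mul_right _ hfin
      _ < (N + 1) * (N * D + 1) := by nlinarith
  have hne : LinearMap.ker Φ ≠ ⊥ := LinearMap.ker_ne_bot_of_finrank_lt hlt
  obtain ⟨y, hy, hy0⟩ := (Submodule.ne_bot_iff _).1 hne
  have hy' : ∀ i, ∑ a, ρ (ri i) a * Y y a = 0 := by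
    intro i
    ext c
    rw [coeff_zero]
    by_cases hc : c < N * D + D + 1
    · have h1 : Φ y = 0 := hy
      have h2 : Φ y i ⟨c, hc⟩ = 0 := by
        rw [h1]
        rfl
      exact h2
    · apply coeff_eq_zero_of_natDegree_lt
      refine lt_of_le_of_lt ?_ (not_lt.1 hc)
      apply natDegree_sum_le_of_forall_le
      intro a _
      refine natDegree_mul_le.trans ?_
      have h1 := hρ (ri i) a
      have h2 := polyOf_natDegree (N * D) (y a)
      show (ρ (ri i) a).natDegree + (polyOf (N * D) (y a)).natDegree ≤ N * D + D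
      omega
  refine ⟨Y y, ?_, fun a => polyOf_natDegree _ _, ?_⟩
  · intro h0
    apply hy0
    funext a c
    rw [← polyOf_coeff (N * D) (y a) c]
    have h1 := congrFun h0 a
    have h2 : polyOf (N * D) (y a) = 0 := h1
    rw [h2, coeff_zero]
    rfl
  · intro r
    apply hinj
    rw [map_zero, ← hfv]
    have h1 : Submodule.span F (Set.range v) ≤ LinearMap.ker (fn (Y y)) := by
      rw [← hspan, Submodule.span_le]
      rintro _ ⟨i, rfl⟩
      show fn (Y y) (f i) = 0
      rw [← hri i, hfv, hy' i, map_zero]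
    exact h1 (Submodule.subset_span ⟨r, rfl⟩)

/-- General position over a domain containing the rational numbers. -/
theorem gen_zero {A : Type*} [CommRing A] [IsDomain A] [Algebra ℚ A] {n q : ℕ} {t : Fin q → ℚ}
    (ht : GenPts n q t) {μ : Fin ((n + 1) * (n + 1)) ⊕ Fin ((n + 1) * (n + 1)) → Fin q}
    (hμ : Function.Injective μ) (ω : Fin (n + 1) → Fin (n + 1) → A)
    (h : ∀ r, ∑ a, ∑ b, ω a b * (algebraMap ℚ A (t (μ (Sum.inl r)) ^ (a : ℕ) *
      t (μ (Sum.inr r)) ^ (b : ℕ))) = 0) : ω = 0 := by
  classical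
  let Mt : Matrix (Fin ((n + 1) * (n + 1))) (Fin ((n + 1) * (n + 1))) ℚ :=
    Matrix.of fun r c => t (μ (Sum.inl r)) ^ ((finProdFinEquiv.symm c).1 : ℕ) *
      t (μ (Sum.inr r)) ^ ((finProdFinEquiv.symm c).2 : ℕ)
  have hdet : Mt.det ≠ 0 := by
    intro h0
    obtain ⟨w, hw, hw0⟩ := Matrix.exists_mulVec_eq_zero_iff.2 h0
    apply hw
    have h1 := ht.2 μ hμ (fun a b => (w (finProdFinEquiv (a, b)) : ℂ)) (by
      intro r
      have h2 := congrFun hw0 r
      rw [Matrix.mulVec, dotProduct, Pi.zero_apply, ← finProdFinEquiv.sum_comp,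
        Fintype.sum_prod_type] at h2
      have h3 := congrArg (fun x : ℚ => (x : ℂ)) h2
      simp only [Mt, Matrix.of_apply, Equiv.symm_apply_apply] at h3
      push_cast at h3
      rw [← h3]
      refine Finset.sum_congr rfl fun a _ => Finset.sum_congr rfl fun b _ => ?_
      ring)
    funext c
    have h2 := congrFun (congrFun h1 (finProdFinEquiv.symm c).1) (finProdFinEquiv.symm c).2
    simp only [Prod.mk.eta, Equiv.apply_symm_apply, Pi.zero_apply] at h2
    exact_mod_cast h2
  have hdetA : ((algebraMap ℚ A).mapMatrix Mt).det ≠ 0 := by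
    rw [← RingHom.map_det]
    exact fun h0 => hdet ((algebraMap ℚ A).injective (by rw [h0, map_zero]))
  have h1 := Matrix.eq_zero_of_mulVec_eq_zero hdetA
    (v := fun c => ω (finProdFinEquiv.symm c).1 (finProdFinEquiv.symm c).2) (by
      funext r
      rw [Matrix.mulVec, dotProduct, Pi.zero_apply, ← h r, ← finProdFinEquiv.sum_comp,
        Fintype.sum_prod_type]
      refine Finset.sum_congr rfl fun a _ => Finset.sum_congr rfl fun b _ => ?_
      simp only [RingHom.mapMatrix_apply, Matrix.map_apply, Mt, Matrix.of_apply,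
        Equiv.symm_apply_apply]
      ring)
  funext a b
  have h2 := congrFun h1 (finProdFinEquiv (a, b))
  simpa using h2

end Pool.Agent.Work.MP_fcfa67_h90
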