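import Pool.Agent.Work.MP_fcfa67_h90.Elim
import Pool.Agent.Work.MP_fcfa67_h90.Siegel

/-!
# Polynomial curves satisfying a relation `∑ M_j G_j ^ k = 0`
-/

open Polynomial Pool.Agent.Work.MP_f82ddf_nt

namespace Pool.Agent.Work.MP_fcfa67_h90

variable {K : Type*} [Field K]

theorem natDegree_sum_C {N D : ℕ} (g : Fin (N + 1) → K[X]) (c : Fin (N + 1) → K)
    (hg : ∀ a, (g a).natDegree ≤ D) : (∑ a, g a * C (c a)).natDegree ≤ D := by
  apply natDegree_sum_le_of_forall_le
  intro a _
  exact (natDegree_mul_C_le _ _).trans (hg a)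

/-- The values of a polynomial of degree at most `n` at distinct points. -/
theorem card_zeros {n q : ℕ} [CharZero K] (t : Fin q → ℚ) (ht : Function.Injective t)
    (x : Fin (n + 1) → K[X]) (hx : x ≠ 0) (s : Finset (Fin q))
    (hs : ∀ j ∈ s, ∑ i, x i * C ((t j : K) ^ (i : ℕ)) = 0) : s.card ≤ n := by
  classical
  by_contra hcon
  push Not at hcon
  obtain ⟨f, hf⟩ : ∃ f : Fin (n + 1) → Fin q, Function.Injective f ∧ ∀ i, f i ∈ s := by
    obtain ⟨s', hs', hc⟩ := Finset.exists_subset_card_eq hcon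
    refine ⟨fun i => (s'.equivFinOfCardEq hc).symm i, ?_, fun i => hs' ?_⟩
    · intro a b hab
      exact (s'.equivFinOfCardEq hc).symm.injective (Subtype.ext hab)
    · exact ((s'.equivFinOfCardEq hc).symm i).2
  apply hx
  apply Matrix.eq_zero_of_forall_index_sum_pow_mul_eq_zero (f := fun i => C ((t (f i) : ℚ) : K))
  · intro a b hab
    have h1 := C_injective hab
    have h2 : t (f a) = t (f b) := by exact_mod_cast h1
    exact hf.1 (ht h2)
  · intro j
    have h1 := hs (f j) (hf.2 j)
    rw [← h1]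
    refine Finset.sum_congr rfl fun i _ => ?_
    rw [C_pow]
    ring

/-- Linear forms in general position along a curve: pairs which agree up to factors of small
degree. -/
theorem general_pairs [CharZero K] {N q : ℕ} (τ : Fin q → ℚ) (hτ : GenPts N q τ)
    (μ : Fin ((N + 1) * (N + 1)) ⊕ Fin ((N + 1) * (N + 1)) → Fin q)
    (hμ : Function.Injective μ) (g : Fin (N + 1) → K[X]) (hg : Ideal.span (Set.range g) = ⊤)
    (w D : ℕ) (hrel : ∀ r, Rel w D (∑ a, g a * C ((τ (μ (Sum.inl r)) : K) ^ (a : ℕ)))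
      (∑ a, g a * C ((τ (μ (Sum.inr r)) : K) ^ (a : ℕ))))
    (b : Fin (N + 1)) (h : N * D < w * (g b).natDegree) : False := by
  classical
  have hw : 0 < w := by
    rcases Nat.eq_zero_or_pos w with h0 | h0
    · rw [h0, zero_mul] at h
      exact absurd h (Nat.not_lt_zero _)
    · exact h0
  choose A B hA hB h1 h2 h3 using hrel
  have hg0 : g ≠ 0 := by
    rintro rfl
    have : (1 : K[X]) ∈ Ideal.span (Set.range (0 : Fin (N + 1) → K[X])) := by
      rw [hg]
      exact Submodule.mem_top
    rw [Set.range_zero] at this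
    simp at this
  have hdeg : ∀ {P : K[X]}, w * P.natDegree ≤ D → P.natDegree ≤ D / w := by
    intro P hP
    rw [Nat.le_div_iff_mul_le hw, mul_comm]
    exact hP
  obtain ⟨y, hy0, hyd, hy⟩ := siegel (D / w)
    (fun r (a : Fin (N + 1)) => B r * C ((τ (μ (Sum.inl r)) : K) ^ (a : ℕ)) -
      A r * C ((τ (μ (Sum.inr r)) : K) ^ (a : ℕ)))
    (by
      intro r a
      refine (natDegree_sub_le _ _).trans (max_le ?_ ?_)
      · exact (natDegree_mul_C_le _ _).trans (hdeg (h2 r))
      · exact (natDegree_mul_C_le _ _).trans (hdeg (h1 r)))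
    g hg0 (by
      intro r
      have h4 := h3 r
      rw [Finset.sum_mul, Finset.sum_mul] at h4
      rw [← sub_eq_zero, ← Finset.sum_sub_distrib] at h4
      rw [← h4]
      refine Finset.sum_congr rfl fun a _ => ?_
      ring)
  have hwedge : (fun (a c : Fin (N + 1)) => g a * y c - g c * y a) = 0 := by
    apply gen_zero hτ hμ
    intro r
    have h4 : (∑ a, y a * C ((τ (μ (Sum.inl r)) : K) ^ (a : ℕ))) * B r =
        (∑ a, y a * C ((τ (μ (Sum.inr r)) : K) ^ (a : ℕ))) * A r := by
      rw [← sub_eq_zero, Finset.sum_mul, Finset.sum_mul, ← Finset.sum_sub_distrib, ← hy r]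
      refine Finset.sum_congr rfl fun a _ => ?_
      ring
    have h5 := h3 r
    have h6 : (∑ a, g a * C ((τ (μ (Sum.inl r)) : K) ^ (a : ℕ))) *
        (∑ a, y a * C ((τ (μ (Sum.inr r)) : K) ^ (a : ℕ))) -
        (∑ a, g a * C ((τ (μ (Sum.inr r)) : K) ^ (a : ℕ))) *
        (∑ a, y a * C ((τ (μ (Sum.inl r)) : K) ^ (a : ℕ))) = 0 := by
      apply mul_left_cancel₀ (mul_ne_zero (hA r) (hB r))
      generalize (∑ a, g a * C ((τ (μ (Sum.inl r)) : K) ^ (a : ℕ))) = p at *
      generalize (∑ a, g a * C ((τ (μ (Sum.inr r)) : K) ^ (a : ℕ))) = p' at *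
      generalize (∑ a, y a * C ((τ (μ (Sum.inl r)) : K) ^ (a : ℕ))) = z at *
      generalize (∑ a, y a * C ((τ (μ (Sum.inr r)) : K) ^ (a : ℕ))) = z' at *
      rw [mul_zero]
      linear_combination A r * z' * h5 - p' * A r * h4
    rw [← h6, Finset.sum_mul_sum, Finset.sum_mul_sum]
    rw [Finset.sum_comm (s := Finset.univ) (t := Finset.univ)
      (f := fun a c => (g a * C ((τ (μ (Sum.inr r)) : K) ^ (a : ℕ))) *
        (y c * C ((τ (μ (Sum.inl r)) : K) ^ (c : ℕ))))]
    rw [← Finset.sum_sub_distrib]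
    refine Finset.sum_congr rfl fun a _ => ?_
    rw [← Finset.sum_sub_distrib]
    refine Finset.sum_congr rfl fun c _ => ?_
    have e1 : ∀ x : ℚ, algebraMap ℚ K[X] x = C (x : K) := by
      intro x
      rw [IsScalarTower.algebraMap_apply ℚ K K[X], algebraMap_eq, eq_ratCast]
    rw [e1]
    push_cast
    rw [C_mul]
    ring
  have hw' : ∀ a c, g a * y c = g c * y a := fun a c =>
    sub_eq_zero.1 (congrFun (congrFun hwedge a) c)
  -- `y` is a multiple of `g`
  obtain ⟨u, hu⟩ : ∃ u : Fin (N + 1) → K[X], ∑ a, u a * g a = 1 := by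
    have h4 : (1 : K[X]) ∈ Ideal.span (Set.range g) := by
      rw [hg]
      exact Submodule.mem_top
    obtain ⟨u, hu⟩ := (Submodule.mem_span_range_iff_exists_fun K[X]).1 h4
    exact ⟨u, by simpa only [smul_eq_mul] using hu⟩
  have hφ : ∀ c, y c = g c * ∑ a, u a * y a := by
    intro c
    calc y c = (∑ a, u a * g a) * y c := by rw [hu, one_mul]
      _ = ∑ a, u a * (g c * y a) := by
        rw [Finset.sum_mul]
        refine Finset.sum_congr rfl fun a _ => ?_
        rw [mul_assoc, hw' a c]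
      _ = g c * ∑ a, u a * y a := by
        rw [Finset.mul_sum]
        refine Finset.sum_congr rfl fun a _ => ?_
        ring
  set φ := ∑ a, u a * y a with hφdef
  have hφ0 : φ ≠ 0 := by
    intro h0
    apply hy0
    funext c
    rw [hφ c, h0, mul_zero]
    rfl
  have hgb : (g b).natDegree ≤ N * (D / w) := by
    rcases eq_or_ne (g b) 0 with h0 | h0
    · rw [h0, natDegree_zero]
      exact Nat.zero_le _
    · have h4 := hyd b
      rw [hφ b, natDegree_mul h0 hφ0] at h4
      omega
  have h5 : w * (g b).natDegree ≤ N * D := by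
    calc w * (g b).natDegree ≤ w * (N * (D / w)) := Nat.mul_le_mul_left _ hgb
      _ = N * (w * (D / w)) := by ring
      _ ≤ N * D := Nat.mul_le_mul_left _ (Nat.mul_div_le D w)
  omega

end Pool.Agent.Work.MP_fcfa67_h90
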