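import Mathlib

/-!
# Manin's rational curve conjecture for quasi-projective varieties: definitions

A closed subset `X` of projective space over `k` is given by a set `S` of homogeneous polynomials,
and an open subset `U` of `X` by a second set `T` of homogeneous polynomials: `U` consists of the
points of `X` at which some element of `T` does not vanish.
-/

open MvPolynomial
open scoped LinearAlgebra.Projectivization

namespace Pool.Agent.Work.MP_fcfa67_h90

/-- Projective space of dimension `n` over the field `k`. -/
abbrev PSpace (k : Type*) [Field k] (n : ℕ) : Type _ := ℙ k (Fin (n + 1) → k)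

/-- The hypersurface `F = 0` is smooth (Jacobian criterion at all geometric points). -/
def Nonsingular {k : Type*} [Field k] {n : ℕ} (F : MvPolynomial (Fin (n + 1)) k) : Prop :=
  ∀ v : Fin (n + 1) → AlgebraicClosure k, v ≠ 0 → aeval v F = 0 →
    ∃ i, aeval v (pderiv i F) ≠ 0

/-- `U(k)`: the `k`-points of the open subset `U` of `X`, where `X` is given by the vanishing of
all elements of `S`, and `U` is the locus in `X` where some element of `T` does not vanish. -/
def openPoints {k : Type*} [Field k] {n : ℕ} (S T : Set (MvPolynomial (Fin (n + 1)) k)) :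
    Set (PSpace k n) :=
  {P | (∀ F ∈ S, aeval P.rep F = 0) ∧ ∃ G ∈ T, aeval P.rep G ≠ 0}

/-- The growth condition for a set `V` of points of projective space over `k`: there are
`δ, c > 0` such that for arbitrarily large `B` there are at least `c B ^ δ` points of height at
most `B` in `V`. -/
def ManyPoints {k : Type*} [Field k] [NumberField k] {n : ℕ} (V : Set (PSpace k n)) : Prop :=
  ∃ δ c : ℝ, 0 < δ ∧ 0 < c ∧ ∀ B₀ : ℝ, ∃ B : ℝ, B₀ ≤ B ∧ ∃ A : Finset (PSpace k n),
    (∀ P ∈ A, P ∈ V ∧ P.mulHeight ≤ B) ∧ c * B ^ δ ≤ (A.card : ℝ)

/-- The tuple of polynomials `g` (homogeneous coordinates) defines a nonconstant map from the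
line to projective space: `g` is not the product of a constant vector with a polynomial. -/
def Nonconstant {Ω : Type*} [Field Ω] {n : ℕ} (g : Fin (n + 1) → Polynomial Ω) : Prop :=
  ¬ ∃ (v : Fin (n + 1) → Ω) (h : Polynomial Ω), ∀ i, g i = Polynomial.C (v i) * h

/-- There is a nonconstant morphism over `k` from the projective line to `X` whose image
meets `U`. -/
def HasRationalCurve {k : Type*} [Field k] {n : ℕ} (S T : Set (MvPolynomial (Fin (n + 1)) k)) :
    Prop :=
  ∃ g : Fin (n + 1) → Polynomial k, Nonconstant g ∧ (∀ F ∈ S, aeval g F = 0) ∧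
    ∃ G ∈ T, aeval g G ≠ 0

/-- All rational curves in the hypersurface `F = 0`, over all extensions `Ω` of `k`, lie in the
last coordinate hyperplane. -/
def CurvesAtLast {k : Type} [Field k] {n : ℕ} (F : MvPolynomial (Fin (n + 1)) k) : Prop :=
  ∀ (Ω : Type) [Field Ω] [Algebra k Ω] (g : Fin (n + 1) → Polynomial Ω),
    Nonconstant g → aeval g F = 0 → g (Fin.last n) = 0

end Pool.Agent.Work.MP_fcfa67_h90
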