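import Pool.Agent.Work.MP_fcfa67_h90.Final
import Pool.Agent.Work.MP_f82ddf_nt.DQ.Main

/-!
# The reduction of Manin's rational curve conjecture to smooth complete intersections of diagonal
quadrics
-/

open MvPolynomial Height NumberField
open Pool.Agent.Work.MP_f82ddf_nt (SmoothDiagonal diagonal IsEmbedding complexPoints HolomorphicOn)

namespace Pool.Agent.Work.MP_fcfa67_h90

section embedding

variable {k : Type} [Field k] {n N d : ℕ} {Λ : Fin (N + 1) → MvPolynomial (Fin (n + 1)) k}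

/-- The coefficients which express a form of degree `d` by the forms `Λ j`. -/
theorem exists_coeffs (hΛ : IsEmbedding d Λ) {G : MvPolynomial (Fin (n + 1)) k}
    (hG : G.IsHomogeneous d) : ∃ c : Fin (N + 1) → k, G = ∑ j, C (c j) * Λ j := by
  obtain ⟨c, hc⟩ := (Submodule.mem_span_range_iff_exists_fun k).1 (hΛ.2.2 G hG)
  refine ⟨c, hc.symm.trans ?_⟩
  refine Finset.sum_congr rfl fun j _ => ?_
  rw [smul_eq_C_mul]

theorem embedding_ne_zero {L : Type} [Field L] [Algebra k L] (hΛ : IsEmbedding d Λ)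
    {x : Fin (n + 1) → L} (hx : x ≠ 0) : (fun j => aeval x (Λ j)) ≠ 0 := by
  intro h0
  apply hx
  funext i
  have hX := (isHomogeneous_X k i).pow d
  rw [one_mul] at hX
  obtain ⟨c, hc⟩ := exists_coeffs hΛ hX
  have h1 := congrArg (aeval x) hc
  rw [map_pow, aeval_X, map_sum, Finset.sum_eq_zero] at h1
  · exact eq_zero_of_pow_eq_zero h1
  · intro j _
    have h2 : aeval x (Λ j) = 0 := congrFun h0 j
    rw [map_mul, h2, mul_zero]

theorem embedding_smul {L : Type} [Field L] [Algebra k L] (hΛ : IsEmbedding d Λ)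
    {x y : Fin (n + 1) → L} {s : L} (h : ∀ j, s * aeval y (Λ j) = aeval x (Λ j))
    {G : MvPolynomial (Fin (n + 1)) k} (hG : G.IsHomogeneous d) :
    s * aeval y G = aeval x G := by
  obtain ⟨c, hc⟩ := exists_coeffs hΛ hG
  rw [hc, map_sum, map_sum, Finset.mul_sum]
  refine Finset.sum_congr rfl fun j _ => ?_
  rw [map_mul, map_mul, ← h j, aeval_C, aeval_C]
  ring

/-- The monomial `x_i ^ (d - 1) x_j`. -/
theorem mono_homogeneous (hd : 0 < d) (i j : Fin (n + 1)) :
    (X i ^ (d - 1) * X j : MvPolynomial (Fin (n + 1)) k).IsHomogeneous d := by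
  have h1 := ((isHomogeneous_X k i).pow (d - 1)).mul (isHomogeneous_X k j)
  rwa [one_mul, Nat.sub_add_cancel hd] at h1

theorem embedding_inj {L : Type} [Field L] [Algebra k L] (hΛ : IsEmbedding d Λ)
    {x y : Fin (n + 1) → L} (hx : x ≠ 0) {s : L}
    (h : ∀ j, s * aeval y (Λ j) = aeval x (Λ j)) : ∃ t : L, t • y = x := by
  obtain ⟨i, hi⟩ := Function.ne_iff.1 hx
  have hi' : x i ≠ 0 := hi
  have h1 : ∀ j, s * (y i ^ (d - 1) * y j) = x i ^ (d - 1) * x j := by
    intro j
    have h2 := embedding_smul hΛ h (mono_homogeneous hΛ.1 i j)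
    simpa only [map_mul, map_pow, aeval_X] using h2
  refine ⟨s * y i ^ (d - 1) / x i ^ (d - 1), ?_⟩
  funext j
  rw [Pi.smul_apply, smul_eq_mul, div_mul_eq_mul_div, div_eq_iff (pow_ne_zero _ hi')]
  linear_combination h1 j

theorem diagonal_homogeneous {r : ℕ} (a : Matrix (Fin r) (Fin (N + 1)) k) :
    ∀ F ∈ diagonal a, ∃ e, F.IsHomogeneous e := by
  rintro _ ⟨i, rfl⟩
  refine ⟨2, IsHomogeneous.sum _ _ _ fun j _ => ?_⟩
  have := (isHomogeneous_C (Fin (N + 1)) (a i j)).mul ((isHomogeneous_X k j).pow 2)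
  rwa [zero_add, one_mul] at this

variable [NumberField k]

theorem manyPoints_embedding {S : Set (MvPolynomial (Fin (n + 1)) k)}
    (hΛ : IsEmbedding d Λ) {S' : Set (MvPolynomial (Fin (N + 1)) k)}
    (hS' : ∀ F ∈ S', ∃ e, F.IsHomogeneous e)
    (hSS' : ∀ x : Fin (n + 1) → k, (∀ F ∈ S, aeval x F = 0) →
      ∀ G ∈ S', aeval (fun j => aeval x (Λ j)) G = 0)
    (h : ManyPoints (openPoints S {1})) : ManyPoints (openPoints S' {1}) := by
  obtain ⟨C, hC, hbd⟩ := mulHeight_eval_le' hΛ.2.1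
  refine manyPoints_of_map h (fun P => Projectivization.mk k (fun j => aeval P.rep (Λ j))
    (embedding_ne_zero hΛ P.rep_nonzero)) ?_ ?_ (C := C) (a := d) ?_
  · intro P _ Q _ hPQ
    simp only at hPQ
    rw [Projectivization.mk_eq_mk_iff'] at hPQ
    obtain ⟨s, hs⟩ := hPQ
    obtain ⟨t, ht⟩ := embedding_inj hΛ P.rep_nonzero (fun j => congrFun hs j)
    rw [← P.mk_rep, ← Q.mk_rep, Projectivization.mk_eq_mk_iff']
    exact ⟨t, ht⟩
  · rintro P ⟨hPS, -⟩
    exact mk_mem_openPoints_one hS' _ _ (hSS' P.rep hPS)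
  · intro P _
    rw [Projectivization.mulHeight_mk]
    refine (hbd P.rep).trans (le_of_eq ?_)
    rw [← Projectivization.mulHeight_mk P.rep_nonzero, P.mk_rep]

end embedding

section curves

/-- A polynomial over a subfield of the complex numbers is determined by its values at almost all
complex numbers. -/
theorem poly_zero_of_values {k : Type} [Field k] (σ : k →+* ℂ) (p q : Polynomial k) (hq : q ≠ 0)
    (h : ∀ z : ℂ, q.eval₂ σ z ≠ 0 → p.eval₂ σ z = 0) : p = 0 := by
  have h1 : Polynomial.map σ (p * q) = 0 := by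
    apply Polynomial.funext
    intro z
    rw [Polynomial.eval_map, Polynomial.eval₂_mul, Polynomial.eval_zero]
    by_cases hz : q.eval₂ σ z = 0
    · rw [hz, mul_zero]
    · rw [h z hz, zero_mul]
  have h2 := (Polynomial.map_eq_zero_iff σ.injective).1 h1
  exact (mul_eq_zero.1 h2).resolve_right hq

theorem eval₂_aeval {k : Type} [Field k] {n : ℕ} (σ : k →+* ℂ) (z : ℂ)
    (g : Fin (n + 1) → Polynomial k) (F : MvPolynomial (Fin (n + 1)) k) :
    (aeval g F).eval₂ σ z = eval₂ σ (fun i => (g i).eval₂ σ z) F := by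
  rw [aeval_def, ← Polynomial.coe_eval₂RingHom, ← coe_eval₂Hom (f := algebraMap k (Polynomial k)),
    ← coe_eval₂Hom, ← RingHom.comp_apply]
  apply RingHom.congr_fun
  apply MvPolynomial.ringHom_ext
  · intro x
    simp [Polynomial.algebraMap_eq]
  · intro i
    simp

/-- Rational curves over `k` in the target of the embedding come from rational curves. -/
theorem curve_embedding {k : Type} [Field k] {n N d : ℕ}
    {Λ : Fin (N + 1) → MvPolynomial (Fin (n + 1)) k} (hΛ : IsEmbedding d Λ)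
    {S : Set (MvPolynomial (Fin (n + 1)) k)} (hS : ∀ F ∈ S, ∃ e, F.IsHomogeneous e)
    {S' : Set (MvPolynomial (Fin (N + 1)) k)} (hS' : ∀ F ∈ S', ∃ e, F.IsHomogeneous e)
    (σ : k →+* ℂ)
    (hσ : ∀ f : ℂ → PSpace ℂ N, HolomorphicOn f Set.univ →
      (∀ z, f z ∈ complexPoints S' σ) → (∃ z w, f z ≠ f w) →
      ∃ (ε : Fin (N + 1) → ℂ) (g : ℂ → PSpace ℂ n), (∀ j, ε j = 1 ∨ ε j = -1) ∧
        HolomorphicOn g Set.univ ∧ (∀ z, g z ∈ complexPoints S σ) ∧
        ∀ z, ∃ c : ℂ, c ≠ 0 ∧ ∀ j, (f z).rep j = c * (ε j * eval₂ σ (g z).rep (Λ j)))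
    (h : HasRationalCurve S' {1}) : HasRationalCurve S {1} := by
  classical
  obtain ⟨g₀, hg₀, hg₀S, -⟩ := h
  have hg₀0 : g₀ ≠ 0 := by
    rintro rfl
    exact hg₀ ⟨0, 0, fun i => by simp⟩
  obtain ⟨P, g, hP, hgP, hprim⟩ := exists_primitive g₀ hg₀0
  have hg : Nonconstant g := by
    rintro ⟨v, u, hvu⟩
    apply hg₀
    refine ⟨v, P * u, fun i => ?_⟩
    rw [hgP, hvu]
    ring
  have hgS : ∀ F ∈ S', aeval g F = 0 := by
    intro F hF
    obtain ⟨e, he⟩ := hS' F hF
    have h1 := hg₀S F hF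
    have h2 : g₀ = fun i => P * g i := funext hgP
    rw [h2, aeval_smul_hom he] at h1
    exact (mul_eq_zero.1 h1).resolve_left (pow_ne_zero _ hP)
  -- the entire curve
  set G : ℂ → Fin (N + 1) → ℂ := fun z i => (g i).eval₂ σ z with hG
  have hG0 : ∀ z, G z ≠ 0 := by
    intro z h0
    have h4 : (1 : Polynomial k) ∈ Ideal.span (Set.range g) := by
      rw [hprim]
      exact Submodule.mem_top
    obtain ⟨u, hu⟩ := (Submodule.mem_span_range_iff_exists_fun (Polynomial k)).1 h4
    have h5 := congrArg (fun p => Polynomial.eval₂ σ z p) hu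
    simp only [Polynomial.eval₂_finsetSum, smul_eq_mul, Polynomial.eval₂_mul,
      Polynomial.eval₂_one] at h5
    rw [Finset.sum_eq_zero] at h5
    · exact zero_ne_one h5
    · intro i _
      have : (g i).eval₂ σ z = 0 := congrFun h0 i
      rw [this, mul_zero]
  set f : ℂ → PSpace ℂ N := fun z => Projectivization.mk ℂ (G z) (hG0 z) with hf
  have hfhol : HolomorphicOn f Set.univ := by
    intro z₀ _
    refine ⟨G, ?_, Filter.Eventually.of_forall fun z => ⟨hG0 z, rfl⟩⟩
    rw [analyticAt_pi_iff]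
    intro i
    have h1 : (fun z => G z i) = fun z => (Polynomial.map σ (g i)).eval z := by
      funext z
      rw [Polynomial.eval_map]
    rw [h1]
    exact (Polynomial.differentiable _).analyticAt z₀
  have hfS : ∀ z, f z ∈ complexPoints S' σ := by
    intro z
    refine Pool.Agent.Work.MP_f82ddf_nt.mk_mem_complexPoints hS' σ _ (hG0 z) fun F hF => ?_
    rw [hG, ← eval₂_aeval, hgS F hF, Polynomial.eval₂_zero]
  -- a polynomial tuple which is generically proportional to a constant vector is constant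
  have hconst : ∀ (v : Fin (N + 1) → k) (q : Polynomial k), v ≠ 0 → q ≠ 0 →
      (∀ z, q.eval₂ σ z ≠ 0 → ∃ s : ℂ, ∀ i, G z i = s * σ (v i)) → False := by
    intro v q hv hq hprop
    obtain ⟨i₀, hi₀⟩ := Function.ne_iff.1 hv
    have hi₀' : v i₀ ≠ 0 := hi₀
    apply hg
    refine ⟨fun i => v i / v i₀, g i₀, fun i => ?_⟩
    have h1 : g i * Polynomial.C (v i₀) - g i₀ * Polynomial.C (v i) = 0 := by
      apply poly_zero_of_values σ _ q hq
      intro z hz
      obtain ⟨s, hs⟩ := hprop z hz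
      have e1 : (g i).eval₂ σ z = s * σ (v i) := hs i
      have e2 : (g i₀).eval₂ σ z = s * σ (v i₀) := hs i₀
      rw [Polynomial.eval₂_sub, Polynomial.eval₂_mul, Polynomial.eval₂_mul, Polynomial.eval₂_C,
        Polynomial.eval₂_C, e1, e2]
      ring
    have hC0 : Polynomial.C (v i₀) ≠ 0 := fun h0 => hi₀' (by simpa using h0)
    apply mul_right_cancel₀ hC0
    have h2 : Polynomial.C (v i / v i₀) * Polynomial.C (v i₀) = Polynomial.C (v i) := by
      rw [← Polynomial.C_mul, div_mul_cancel₀ _ hi₀']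
    linear_combination h1 - g i₀ * h2
  have hfne : ∃ z w, f z ≠ f w := by
    by_contra hcon
    push Not at hcon
    -- the value at zero
    set v : Fin (N + 1) → k := fun i => (g i).eval 0 with hv
    have hv' : ∀ i, G 0 i = σ (v i) := by
      intro i
      rw [hG, hv]
      simp only
      rw [← map_zero σ, Polynomial.eval₂_at_apply]
    apply hconst v 1 ?_ one_ne_zero ?_
    · intro h0
      apply hG0 0
      funext i
      rw [hv', h0, Pi.zero_apply, map_zero]
      rfl
    · intro z _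
      have h1 := hcon z 0
      rw [hf] at h1
      simp only at h1
      rw [Projectivization.mk_eq_mk_iff'] at h1
      obtain ⟨s, hs⟩ := h1
      refine ⟨s, fun i => ?_⟩
      rw [← hv', ← hs]
      rfl
  obtain ⟨ε, gg, hε, -, hggS, hgg⟩ := hσ f hfhol hfS hfne
  -- the signs over `k`
  have hε' : ∀ j, ∃ η : k, σ η = ε j ∧ η * η = 1 := by
    intro j
    rcases hε j with h | h
    · exact ⟨1, by rw [h, map_one], by ring⟩
    · exact ⟨-1, by rw [h, map_neg, map_one], by ring⟩
  choose η hη hη2 using hε'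
  set x : ℂ → Fin (n + 1) → ℂ := fun z => (gg z).rep with hx
  have hx0 : ∀ z, x z ≠ 0 := fun z => (gg z).rep_nonzero
  have hprop : ∀ z, ∃ s : ℂ, s ≠ 0 ∧ ∀ j, G z j = s * (ε j * eval₂ σ (x z) (Λ j)) := by
    intro z
    obtain ⟨c, hc, hcj⟩ := hgg z
    obtain ⟨a, ha⟩ := Projectivization.exists_smul_eq_mk_rep ℂ (G z) (hG0 z)
    refine ⟨(a : ℂ)⁻¹ * c, mul_ne_zero (inv_ne_zero a.ne_zero) hc, fun j => ?_⟩
    have h1 : (f z).rep j = (a : ℂ) * G z j := by
      have := congrFun ha j
      rw [hf]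
      simp only
      rw [← this]
      rfl
    have h2 := hcj j
    rw [h1] at h2
    have h3 : G z j = (a : ℂ)⁻¹ * ((a : ℂ) * G z j) := by
      rw [← mul_assoc, inv_mul_cancel₀ a.ne_zero, one_mul]
    rw [h3, h2]
    ring
  choose lam hlam0 hlam using hprop
  -- forms of degree `d` along the curve
  have hform : ∀ F : MvPolynomial (Fin (n + 1)) k, F.IsHomogeneous d →
      ∃ p : Polynomial k, ∀ z, p.eval₂ σ z = lam z * eval₂ σ (x z) F := by
    intro F hF
    obtain ⟨c, hc⟩ := exists_coeffs hΛ hF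
    refine ⟨∑ j, Polynomial.C (c j * η j) * g j, fun z => ?_⟩
    rw [Polynomial.eval₂_finsetSum, hc, ← coe_eval₂Hom, map_sum, Finset.mul_sum]
    refine Finset.sum_congr rfl fun j _ => ?_
    have h1 : (g j).eval₂ σ z = lam z * (ε j * eval₂ σ (x z) (Λ j)) := hlam z j
    have h2 : ε j * ε j = 1 := by rw [← hη j, ← map_mul, hη2 j, map_one]
    rw [Polynomial.eval₂_mul, Polynomial.eval₂_C, h1, map_mul, map_mul, hη j, coe_eval₂Hom,
      eval₂_C]
    linear_combination (σ (c j) * lam z * eval₂ σ (x z) (Λ j)) * h2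
  have hmono : ∀ i j : Fin (n + 1), ∃ p : Polynomial k,
      ∀ z, p.eval₂ σ z = lam z * (x z i ^ (d - 1) * x z j) := by
    intro i j
    obtain ⟨p, hp⟩ := hform _ (mono_homogeneous hΛ.1 i j)
    refine ⟨p, fun z => ?_⟩
    rw [hp z, eval₂_mul, eval₂_pow, eval₂_X, eval₂_X]
  choose p hp using hmono
  obtain ⟨i, hi⟩ := Function.ne_iff.1 (hx0 0)
  have hi' : x 0 i ≠ 0 := hi
  have hpi : p i i ≠ 0 := by
    intro h0
    have h1 := hp i i 0
    rw [h0, Polynomial.eval₂_zero] at h1
    exact mul_ne_zero (hlam0 0) (mul_ne_zero (pow_ne_zero _ hi') hi') h1.symm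
  have hpz : ∀ z, (fun j => (p i j).eval₂ σ z) = (lam z * x z i ^ (d - 1)) • x z := by
    intro z
    funext j
    rw [hp i j z, Pi.smul_apply, smul_eq_mul]
    ring
  refine ⟨p i, ?_, ?_, 1, rfl, by rw [map_one]; exact one_ne_zero⟩
  · rintro ⟨v, u, hvu⟩
    have hu0 : u ≠ 0 := by
      rintro rfl
      apply hpi
      rw [hvu, mul_zero]
    have hv0 : v ≠ 0 := by
      rintro rfl
      apply hpi
      rw [hvu, Pi.zero_apply, Polynomial.C_0, zero_mul]
    have hw0 := embedding_ne_zero (L := k) hΛ hv0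
    apply hconst (fun j => η j * aeval v (Λ j)) (p i i) ?_ hpi ?_
    · intro h0
      apply hw0
      funext j
      have h1 : η j * aeval v (Λ j) = 0 := congrFun h0 j
      have h2 : η j ≠ 0 := by
        intro h3
        have := hη2 j
        rw [h3, mul_zero] at this
        exact zero_ne_one this
      exact (mul_eq_zero.1 h1).resolve_left h2
    · intro z hz
      -- `x z` is a multiple of `v`
      have h1 : ∀ j, lam z * x z i ^ (d - 1) * x z j = u.eval₂ σ z * σ (v j) := by
        intro j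
        have h2 := hp i j z
        rw [hvu, Polynomial.eval₂_mul, Polynomial.eval₂_C] at h2
        linear_combination -h2
      have hμ : lam z * x z i ^ (d - 1) ≠ 0 := by
        intro h0
        apply hz
        rw [hp i i z, ← mul_assoc, h0, zero_mul]
      set μ := lam z * x z i ^ (d - 1) with hμdef
      have hxz : x z = (μ⁻¹ * u.eval₂ σ z) • fun j => σ (v j) := by
        funext j
        rw [Pi.smul_apply, smul_eq_mul, mul_assoc, ← h1 j, ← mul_assoc, inv_mul_cancel₀ hμ,
          one_mul]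
      refine ⟨lam z * (μ⁻¹ * u.eval₂ σ z) ^ d, fun j => ?_⟩
      rw [hlam z j, hxz, Pool.Agent.Work.MP_f82ddf_nt.eval₂_smul_hom (hΛ.2.1 j), map_mul, hη j]
      have h3 : eval₂ σ (fun j => σ (v j)) (Λ j) = σ (aeval v (Λ j)) := by
        have := eval₂_comp_left σ (algebraMap k k) v (Λ j)
        rw [aeval_def, this]
        rfl
      rw [h3]
      ring
  · intro F hF
    obtain ⟨e, he⟩ := hS F hF
    apply poly_zero_of_values σ _ 1 one_ne_zero
    intro z _
    rw [eval₂_aeval, hpz z, Pool.Agent.Work.MP_f82ddf_nt.eval₂_smul_hom he]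
    have h1 : eval₂ σ (x z) F = 0 := hggS z F hF
    rw [h1, mul_zero]

end curves

/-- The reduction to smooth complete intersections of diagonal quadrics. -/
theorem manin_diagonal (k : Type) [Field k] [NumberField k] (δ : ℕ → ℕ)
    (H : ∀ (N r : ℕ) (a : Matrix (Fin r) (Fin (N + 1)) k), N + 1 < 2 * r → δ (N - r) ≤ r →
      SmoothDiagonal a → ManyPoints (openPoints (diagonal a) {1}) →
        HasRationalCurve (diagonal a) {1})
    (K : Type) [Field K] [NumberField K] [Algebra k K] (n : ℕ)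
    (S T : Set (MvPolynomial (Fin (n + 1)) K)) (hS : ∀ F ∈ S, ∃ e, F.IsHomogeneous e)
    (hT : ∀ G ∈ T, ∃ e, G.IsHomogeneous e) (hm : ManyPoints (openPoints S T)) :
    HasRationalCurve S T := by
  obtain ⟨m, S', hS', hm', hcur⟩ := exists_projective k K n S T hS hT hm
  apply hcur
  obtain ⟨N, r, d, a, Λ, h1, h2, h3, h4, h5, -, h6⟩ :=
    Pool.Agent.Work.MP_f82ddf_nt.DQ.exists_diagonal δ S' hS'
  let σ : k →+* ℂ := Classical.arbitrary _
  exact curve_embedding h4 hS' (diagonal_homogeneous a) σ (h6 σ).2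
    (H N r a h1 h2 h3 (manyPoints_embedding h4 (diagonal_homogeneous a) (h5 k) hm'))

end Pool.Agent.Work.MP_fcfa67_h90
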