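import Mathlib

/-!
# Elimination in sums of terms `M G ^ k` of polynomials
-/

open Polynomial

namespace Pool.Agent.Work.MP_fcfa67_h90

variable {K : Type*} [Field K]

/-- `p / q` is a quotient of polynomials of degrees at most `D / w`. -/
def Rel (w D : ℕ) (p q : K[X]) : Prop :=
  ∃ A B : K[X], A ≠ 0 ∧ B ≠ 0 ∧ w * A.natDegree ≤ D ∧ w * B.natDegree ≤ D ∧ p * B = q * A

theorem Rel.symm {w D : ℕ} {p q : K[X]} (h : Rel w D p q) : Rel w D q p := by
  obtain ⟨A, B, hA, hB, h1, h2, h3⟩ := h
  exact ⟨B, A, hB, hA, h2, h1, h3.symm⟩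

theorem Rel.refl {w D : ℕ} (p : K[X]) : Rel w D p p :=
  ⟨1, 1, one_ne_zero, one_ne_zero, by simp, by simp, rfl⟩

theorem Rel.trans {w D D' : ℕ} {p q r : K[X]} (h : Rel w D p q) (h' : Rel w D' q r) :
    Rel w (D + D') p r := by
  obtain ⟨A, B, hA, hB, h1, h2, h3⟩ := h
  obtain ⟨A', B', hA', hB', h1', h2', h3'⟩ := h'
  refine ⟨A * A', B * B', mul_ne_zero hA hA', mul_ne_zero hB hB', ?_, ?_, ?_⟩
  · rw [natDegree_mul hA hA', mul_add]
    omega
  · rw [natDegree_mul hB hB', mul_add]
    omega
  · linear_combination B' * h3 + A * h3'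

theorem Rel.mono {w w' D D' : ℕ} {p q : K[X]} (h : Rel w D p q) (hw : w' ≤ w) (hD : D ≤ D') :
    Rel w' D' p q := by
  obtain ⟨A, B, hA, hB, h1, h2, h3⟩ := h
  exact ⟨A, B, hA, hB, (Nat.mul_le_mul_right _ hw).trans (h1.trans hD),
    (Nat.mul_le_mul_right _ hw).trans (h2.trans hD), h3⟩

/-- Division by the greatest common divisor. -/
theorem exists_coprime {p q : K[X]} (hq : q ≠ 0) :
    ∃ h a b : K[X], h ≠ 0 ∧ p = h * a ∧ q = h * b ∧ IsCoprime a b := by
  classical
  obtain ⟨a, ha⟩ := EuclideanDomain.gcd_dvd_left p q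
  obtain ⟨b, hb⟩ := EuclideanDomain.gcd_dvd_right p q
  have hbez := EuclideanDomain.gcd_eq_gcd_ab p q
  generalize EuclideanDomain.gcd p q = g at ha hb hbez
  have hg : g ≠ 0 := fun h0 => hq (by rw [hb, h0, zero_mul])
  refine ⟨g, a, b, hg, ha, hb, EuclideanDomain.gcdA p q, EuclideanDomain.gcdB p q, ?_⟩
  apply mul_left_cancel₀ hg
  generalize EuclideanDomain.gcdA p q = x at hbez ⊢
  generalize EuclideanDomain.gcdB p q = y at hbez ⊢
  rw [ha, hb] at hbez
  linear_combination -hbez

theorem rel_of_two {M M' G G' : K[X]} (hM : M ≠ 0) (hM' : M' ≠ 0) (hG : G ≠ 0) (hG' : G' ≠ 0)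
    {c : K} (hc : c ≠ 0) {k E : ℕ} (h : M * G ^ k = C c * (M' * G' ^ k))
    (hE : M.natDegree ≤ E) (hE' : M'.natDegree ≤ E) : Rel k E G G' := by
  obtain ⟨g, a, b, hg, ha, hb, hab⟩ := exists_coprime (p := G) hG'
  have ha0 : a ≠ 0 := fun h0 => hG (by rw [ha, h0, mul_zero])
  have hb0 : b ≠ 0 := fun h0 => hG' (by rw [hb, h0, mul_zero])
  have h1 : M * a ^ k = C c * M' * b ^ k := by
    apply mul_right_cancel₀ (pow_ne_zero k hg)
    rw [ha, hb, mul_pow, mul_pow] at h
    linear_combination h
  have hab' : IsCoprime (a ^ k) (b ^ k) := hab.pow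
  refine ⟨a, b, ha0, hb0, ?_, ?_, ?_⟩
  · have h2 : a ^ k ∣ C c * M' := by
      apply hab'.dvd_of_dvd_mul_right
      rw [← h1]
      exact Dvd.intro_left M rfl
    have h3 : a ^ k ∣ M' := by
      obtain ⟨d, hd⟩ := h2
      refine ⟨C c⁻¹ * d, ?_⟩
      have : M' = C c⁻¹ * (C c * M') := by
        rw [← mul_assoc, ← C_mul, inv_mul_cancel₀ hc, C_1, one_mul]
      rw [this, hd]
      ring
    have h4 := natDegree_le_of_dvd h3 hM'
    rw [natDegree_pow] at h4
    exact h4.trans hE'
  · have h2 : b ^ k ∣ M := by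
      apply hab'.symm.dvd_of_dvd_mul_right
      rw [h1]
      exact Dvd.intro_left _ rfl
    have h4 := natDegree_le_of_dvd h2 hM
    rw [natDegree_pow] at h4
    exact h4.trans hE
  · rw [ha, hb]
    ring

theorem const_of_wronskian [CharZero K] {p q : K[X]} (hp : p ≠ 0) (hq : q ≠ 0)
    (h : derivative p * q = derivative q * p) : ∃ c : K, c ≠ 0 ∧ p = C c * q := by
  obtain ⟨g, a, b, hg, ha, hb, hab⟩ := exists_coprime (p := p) hq
  have ha0 : a ≠ 0 := fun h0 => hp (by rw [ha, h0, mul_zero])
  have hb0 : b ≠ 0 := fun h0 => hq (by rw [hb, h0, mul_zero])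
  have h1 : wronskian a b = 0 := by
    rw [wronskian]
    apply mul_left_cancel₀ (mul_ne_zero hg hg)
    rw [ha, hb, derivative_mul, derivative_mul] at h
    rw [mul_zero]
    linear_combination -h
  obtain ⟨h2, h3⟩ := hab.wronskian_eq_zero_iff.1 h1
  have h4 := derivative_eq_zero.1 h2
  have h5 := derivative_eq_zero.1 h3
  obtain ⟨x, hx⟩ := natDegree_eq_zero.1 h4
  obtain ⟨y, hy⟩ := natDegree_eq_zero.1 h5
  have hx0 : x ≠ 0 := fun h0 => ha0 (by rw [← hx, h0, C_0])
  have hy0 : y ≠ 0 := fun h0 => hb0 (by rw [← hy, h0, C_0])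
  refine ⟨x / y, div_ne_zero hx0 hy0, ?_⟩
  rw [ha, hb, ← hx, ← hy]
  have : C x = C (x / y) * C y := by
    rw [← C_mul, div_mul_cancel₀ x hy0]
  rw [this]
  ring

/-- Elimination: in a vanishing sum of nonzero terms `M_i G_i ^ k` with `k` large, every `G_i`
agrees up to a factor of small degree with another `G_j`. -/
theorem elim [CharZero K] {ι : Type*} (δ : ℕ) (G : ι → K[X]) :
    ∀ (m E k : ℕ) (s : Finset ι) (M : ι → K[X]), s.card ≤ m → m ≤ k →
      (∀ i ∈ s, M i ≠ 0) → (∀ i ∈ s, G i ≠ 0) → (∀ i ∈ s, (M i).natDegree ≤ E) →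
      (∀ i ∈ s, (G i).natDegree ≤ δ) → ∑ i ∈ s, M i * G i ^ k = 0 →
      ∀ i ∈ s, ∃ j ∈ s, j ≠ i ∧ Rel (k - m) (2 ^ m * (E + 2 * δ)) (G i) (G j) := by
  classical
  intro m
  induction m with
  | zero =>
    intro E k s M hs _ _ _ _ _ _ i hi
    rw [Finset.card_eq_zero.1 (Nat.le_zero.1 hs)] at hi
    exact absurd hi (Finset.notMem_empty i)
  | succ m ih =>
    intro E k s M hs hk hM hG hE hδ hsum i hi
    obtain ⟨l, hl, hli⟩ : ∃ l ∈ s, l ≠ i := by
      by_contra hcon
      push Not at hcon
      have h1 : s = {i} := Finset.eq_singleton_iff_unique_mem.2 ⟨hi, hcon⟩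
      rw [h1, Finset.sum_singleton] at hsum
      exact mul_ne_zero (hM i hi) (pow_ne_zero k (hG i hi)) hsum
    obtain ⟨k, rfl⟩ : ∃ k', k = k' + 1 := ⟨k - 1, by omega⟩
    set P : ι → K[X] := fun j => derivative (M j) * G j + C ((k + 1 : ℕ) : K) * (M j *
      derivative (G j)) with hP
    set N : ι → K[X] := fun j => P j * (M l * G l) - P l * (M j * G j) with hN
    have hder : ∀ j, derivative (M j * G j ^ (k + 1)) = G j ^ k * P j := by
      intro j
      rw [derivative_mul, derivative_pow, hP]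
      simp only [Nat.add_sub_cancel]
      ring
    by_cases hNi : N i = 0
    · refine ⟨l, hl, hli, ?_⟩
      have h1 : derivative (M i * G i ^ (k + 1)) * (M l * G l ^ (k + 1)) =
          derivative (M l * G l ^ (k + 1)) * (M i * G i ^ (k + 1)) := by
        rw [hder, hder]
        have h2 : P i * (M l * G l) - P l * (M i * G i) = 0 := hNi
        rw [pow_succ, pow_succ]
        linear_combination (G i ^ k * G l ^ k) * h2
      obtain ⟨c, hc, h3⟩ := const_of_wronskian
        (mul_ne_zero (hM i hi) (pow_ne_zero (k + 1) (hG i hi)))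
        (mul_ne_zero (hM l hl) (pow_ne_zero (k + 1) (hG l hl))) h1
      refine (rel_of_two (hM i hi) (hM l hl) (hG i hi) (hG l hl) hc h3 (hE i hi) (hE l hl)).mono
        (Nat.sub_le _ _) ?_
      have h4 : 1 ≤ 2 ^ (m + 1) := Nat.one_le_two_pow
      nlinarith
    · have hsum' : ∑ j ∈ s, G j ^ k * N j = 0 := by
        have h1 := congrArg derivative hsum
        rw [derivative_sum, derivative_zero] at h1
        simp only [hder] at h1
        have h2 : ∑ j ∈ s, G j ^ k * N j = (∑ j ∈ s, G j ^ k * P j) * (M l * G l) -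
            P l * ∑ j ∈ s, M j * G j ^ (k + 1) := by
          rw [Finset.sum_mul, Finset.mul_sum, ← Finset.sum_sub_distrib]
          refine Finset.sum_congr rfl fun j _ => ?_
          rw [hN]
          ring
        rw [h2, h1, hsum]
        ring
      set s' := s.filter fun j => N j ≠ 0 with hs'
      have hsum2 : ∑ j ∈ s', N j * G j ^ k = 0 := by
        rw [← hsum', hs', Finset.sum_filter]
        refine Finset.sum_congr rfl fun j _ => ?_
        split_ifs with h
        · ring
        · push Not at h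
          rw [h]
          ring
      have hNl : N l = 0 := by
        rw [hN]
        ring
      have hcard : s'.card ≤ m := by
        have h1 : s' ⊆ s.erase l := by
          intro j hj
          rw [hs', Finset.mem_filter] at hj
          rw [Finset.mem_erase]
          exact ⟨fun h => hj.2 (h ▸ hNl), hj.1⟩
        have h2 := Finset.card_le_card h1
        rw [Finset.card_erase_of_mem hl] at h2
        omega
      have hsub : ∀ j ∈ s', j ∈ s := fun j hj => (Finset.mem_filter.1 hj).1
      have hdeg : ∀ j ∈ s', (N j).natDegree ≤ 2 * E + 2 * δ := by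
        have hPd : ∀ j ∈ s, (P j).natDegree ≤ E + δ := by
          intro j hj
          have e1 := (natDegree_derivative_le (M j)).trans (Nat.sub_le _ _)
          have e2 := (natDegree_derivative_le (G j)).trans (Nat.sub_le _ _)
          have e3 := hE j hj
          have e4 := hδ j hj
          refine (natDegree_add_le _ _).trans (max_le ?_ ?_)
          · refine natDegree_mul_le.trans ?_
            omega
          · refine (natDegree_C_mul_le _ _).trans (natDegree_mul_le.trans ?_)
            omega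
        intro j hj
        have hj' := hsub j hj
        have e1 := hPd j hj'
        have e2 := hPd l hl
        have e3 := hE j hj'
        have e4 := hδ j hj'
        have e5 := hE l hl
        have e6 := hδ l hl
        refine (natDegree_sub_le _ _).trans (max_le ?_ ?_)
        · have e7 := natDegree_mul_le (p := M l) (q := G l)
          refine natDegree_mul_le.trans ?_
          omega
        · have e7 := natDegree_mul_le (p := M j) (q := G j)
          refine natDegree_mul_le.trans ?_
          omega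
      obtain ⟨j, hj, hji, hrel⟩ := ih (2 * E + 2 * δ) k s' N hcard (by omega)
        (fun j hj => (Finset.mem_filter.1 hj).2) (fun j hj => hG j (hsub j hj)) hdeg
        (fun j hj => hδ j (hsub j hj)) hsum2 i (Finset.mem_filter.2 ⟨hi, hNi⟩)
      refine ⟨j, hsub j hj, hji, hrel.mono (by omega) (le_of_eq ?_)⟩
      ring

end Pool.Agent.Work.MP_fcfa67_h90
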