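import Pool.Agent.Work.MP_fcfa67_h90.Hyper

/-!
# Every projective variety lies in a smooth hypersurface with the same rational curves
-/

open MvPolynomial Pool.Agent.Work.MP_f82ddf_nt

namespace Pool.Agent.Work.MP_fcfa67_h90

/-- Every projective variety `X` over a number field lies in a smooth hypersurface `Y` of
arbitrarily large dimension and degree, such that over all extensions of the field all nonconstant
morphisms from the projective line to `Y` have their image in `X`. -/
theorem exists_hypersurface_curves {K : Type} [Field K] [NumberField K] {n : ℕ}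
    (S : Set (MvPolynomial (Fin (n + 1)) K)) (hS : ∀ F ∈ S, ∃ d, F.IsHomogeneous d)
    (M : ℕ) (h : n ≤ M) (D₀ : ℕ) :
    ∃ (d : ℕ) (F : MvPolynomial (Fin (2 * M + 1 + 1)) K), D₀ ≤ d ∧ F.IsHomogeneous d ∧
      Nonsingular F ∧
      (∀ v : Fin (n + 1) → K, (∀ G ∈ S, aeval v G = 0) → aeval (ext0 M v) F = 0) ∧
      ∀ (Ω : Type) [Field Ω] [Algebra K Ω] (g : Fin (2 * M + 1 + 1) → Polynomial Ω),
        Nonconstant g → aeval g F = 0 →
        (∀ j : Fin (2 * M + 1 + 1), ¬ (j : ℕ) < n + 1 → g j = 0) ∧
          ∀ G ∈ S, aeval (g ∘ incl h) G = 0 := by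
  classical
  obtain ⟨T, hTS, hTz⟩ := exists_finite_subset' S
  have hT : ∀ G : T, ∃ d, G.1.IsHomogeneous d := fun G => hS G.1 (hTS G.2)
  choose dg hdg using hT
  set e := Finset.univ.sup dg + 1 with he
  have hdge : ∀ G, dg G ≤ e := fun G => (Finset.le_sup (Finset.mem_univ G)).trans (Nat.le_succ _)
  have he1 : 1 ≤ e := by omega
  obtain ⟨Dm, hDm⟩ : ∃ Dm, Fintype.card (Fin (2 * M + 1 + 1) × (T ⊕ Fin (2 * M + 1 + 1))) =
      Dm + 1 := by
    have : 0 < Fintype.card (Fin (2 * M + 1 + 1) × (T ⊕ Fin (2 * M + 1 + 1))) :=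
      Fintype.card_pos_iff.2 ⟨(0, Sum.inr 0)⟩
    exact ⟨_, (Nat.succ_pred_eq_of_pos this).symm⟩
  let eΓ : Fin (Dm + 1) ≃ Fin (2 * M + 1 + 1) × (T ⊕ Fin (2 * M + 1 + 1)) :=
    (Fintype.equivFinOfCardEq hDm).symm
  set m : Fin (Dm + 1) → MvPolynomial (Fin (2 * M + 1 + 1)) K :=
    fun i => baseGen h T dg e (eΓ i) with hm
  have hmh : ∀ i, (m i).IsHomogeneous e := fun i => baseGen_homogeneous h T dg hdg e hdge he1 _
  obtain ⟨x, hx⟩ : ∃ x, x = (M + 1) + (M + 1) := ⟨_, rfl⟩
  obtain ⟨q, hq⟩ : ∃ q, q = Dm + (2 * M + 1) +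
    3 * ((2 * M + 1 + 1) * (2 * M + 1 + 1) + x) := ⟨_, rfl⟩
  obtain ⟨τ, hτ⟩ := exists_genPts (2 * M + 1) q
  obtain ⟨k, hk⟩ : ∃ k, k = (q + x) +
    (2 * M + 1) * ((q + x) * (2 ^ (q + x) * (e + 2))) + 1 + D₀ := ⟨_, rfl⟩
  set W := mixForm k τ m with hWdef
  have hW : W.IsHomogeneous (e + k) := mixForm_homogeneous k τ m hmh
  obtain ⟨e', he'⟩ : ∃ e', e = e' + 1 := ⟨e - 1, by omega⟩
  have hc' : e + k = (e' + k) + 1 := by omega
  have hc'2 : 2 ≤ e' + k := by
    have : 2 ≤ q + x := by omega
    have : q + x ≤ k := by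
      rw [hk]
      omega
    omega
  rw [hc'] at hW
  obtain ⟨p, hp, hsm⟩ := exists_prime_smooth M (e' + k) hc'2 W hW
  have hhomF : (pairForm K M (e' + k) + C ((p : K) ^ 1) * W).IsHomogeneous (e' + k + 1) := by
    apply (pairForm_homogeneous K M (e' + k)).add
    have := (isHomogeneous_C (Fin (2 * M + 1 + 1)) ((p : K) ^ 1)).mul hW
    rwa [zero_add] at this
  refine ⟨e' + k + 1, pairForm K M (e' + k) + C ((p : K) ^ 1) * W, by omega, hhomF,
    hsm 1 le_rfl, ?_, ?_⟩
  · intro v hv
    have h1 : aeval (ext0 M v) W = 0 := by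
      rw [hWdef]
      unfold mixForm
      rw [map_sum]
      refine Finset.sum_eq_zero fun j _ => ?_
      rw [map_mul, map_sum, Finset.sum_eq_zero, zero_mul]
      intro s _
      rw [map_mul, hm]
      have h2 := baseGen_ext0' h T dg e v (fun G hG => hv G (hTS hG)) (eΓ s)
      rw [h2, mul_zero]
    have h2 : aeval (ext0 M v) (pairForm K M (e' + k)) = 0 := by
      unfold pairForm
      rw [map_sum]
      refine Finset.sum_eq_zero fun a _ => ?_
      have h3 : ext0 M v (hi M a) = 0 := by
        apply ext0_zero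
        simp only [hi]
        omega
      rw [map_add, map_mul, map_mul, map_pow, map_pow, aeval_X, aeval_X, h3,
        zero_pow (by omega)]
      ring
    rw [map_add, map_mul, h1, h2]
    ring
  · intro Ω _ _ g hgn hgF
    have : CharZero Ω := charZero_of_injective_algebraMap (algebraMap K Ω).injective
    have hg0 : g ≠ 0 := by
      rintro rfl
      exact hgn ⟨0, 0, fun i => by simp⟩
    obtain ⟨P, g', hP, hgg', hprim⟩ := exists_primitive g hg0
    have hgfun : g = fun i => P * g' i := funext hgg'
    have hF' : aeval g' (pairForm K M (e' + k) + C ((p : K) ^ 1) * W) = 0 := by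
      rw [hgfun, aeval_smul_hom hhomF] at hgF
      exact (mul_eq_zero.1 hgF).resolve_left (pow_ne_zero _ hP)
    obtain ⟨b, hb⟩ := Finite.exists_max fun i => (g' i).natDegree
    have hδ : 0 < (g' b).natDegree := by
      by_contra hcon
      have h1 : ∀ i, (g' i).natDegree = 0 := fun i => by
        have := hb i
        omega
      apply hgn
      refine ⟨fun i => (g' i).coeff 0, P, fun i => ?_⟩
      rw [hgg' i, mul_comm, ← Polynomial.eq_C_of_natDegree_eq_zero (h1 i)]
    have hall : ∀ s, aeval g' (m s) = 0 := by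
      by_contra hcon
      push Not at hcon
      obtain ⟨s₀, hs₀⟩ := hcon
      set u : Fin (Dm + 1) → Polynomial Ω := fun s => aeval g' (m s) with hu
      have hu0 : u ≠ 0 := fun h0 => hs₀ (congrFun h0 s₀)
      have hp0 : (p : Ω) ≠ 0 := by
        have : 0 < p := by omega
        exact_mod_cast this.ne'
      have hp0' : Polynomial.C (p : Ω) ≠ 0 := by
        intro h0
        exact hp0 (by simpa using h0)
      refine curve_const (N := 2 * M + 1) (q := q) (x := x) (d := Dm) (E := e * (g' b).natDegree)
        (e := e) (δ := (g' b).natDegree) (k := k) τ hτ g' hprim hb b rfl hδ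
        (fun j => Polynomial.C (p : Ω) * ∑ s, u s * Polynomial.C ((τ j : Ω) ^ (s : ℕ))) ?_ le_rfl ?_
        (fun i => Sum.elim (fun a => g' (hi M a) * g' (lo M a) ^ e')
          (fun a => g' (lo M a) * g' (hi M a) ^ e') (finSumFinEquiv.symm (Fin.cast hx i)))
        (fun i => Sum.elim (fun a => g' (lo M a)) (fun a => g' (hi M a))
          (finSumFinEquiv.symm (Fin.cast hx i)))
        ?_ ?_ hq.ge ?_ ?_
      · intro j
        refine (Polynomial.natDegree_C_mul_le _ _).trans ?_
        apply natDegree_sum_C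
        intro s
        exact aeval_natDegree (hmh s) g' hb
      · have h1 : (Finset.univ.filter fun j : Fin q =>
            ∑ s, u s * Polynomial.C ((τ j : Ω) ^ (s : ℕ)) = 0).card ≤ Dm :=
          card_zeros τ hτ.1 u hu0 _ fun j hj => (Finset.mem_filter.1 hj).2
        have h2 : (Finset.univ : Finset (Fin q)) ⊆ (Finset.univ.filter fun j : Fin q =>
            Polynomial.C (p : Ω) * ∑ s, u s * Polynomial.C ((τ j : Ω) ^ (s : ℕ)) ≠ 0) ∪
            (Finset.univ.filter fun j : Fin q =>
              ∑ s, u s * Polynomial.C ((τ j : Ω) ^ (s : ℕ)) = 0) := by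
          intro j _
          rw [Finset.mem_union, Finset.mem_filter, Finset.mem_filter]
          by_cases h3 : ∑ s, u s * Polynomial.C ((τ j : Ω) ^ (s : ℕ)) = 0
          · exact Or.inr ⟨Finset.mem_univ _, h3⟩
          · exact Or.inl ⟨Finset.mem_univ _, mul_ne_zero hp0' h3⟩
        have h3 := (Finset.card_le_card h2).trans (Finset.card_union_le _ _)
        rw [Finset.card_univ, Fintype.card_fin] at h3
        omega
      · intro i
        have key : ∀ a c : Fin (2 * M + 1 + 1), (g' a * g' c ^ e').natDegree ≤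
            e * (g' b).natDegree := by
          intro a c
          refine Polynomial.natDegree_mul_le.trans ?_
          have h1 := (Polynomial.natDegree_pow_le (p := g' c) (n := e')).trans
            (Nat.mul_le_mul_left _ (hb c))
          have h2 := hb a
          rw [he', add_mul]
          omega
        rcases finSumFinEquiv.symm (Fin.cast hx i) with a | a
        · exact key _ _
        · exact key _ _
      · intro i
        rcases finSumFinEquiv.symm (Fin.cast hx i) with a | a
        · exact hb _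
        · exact hb _
      · rw [hk]
        omega
      · have hconv : ∀ f : Fin (M + 1) ⊕ Fin (M + 1) → Polynomial Ω,
            ∑ i : Fin x, f (finSumFinEquiv.symm (Fin.cast hx i)) =
              ∑ a, f (Sum.inl a) + ∑ a, f (Sum.inr a) := by
          intro f
          rw [← Fintype.sum_sum_type]
          exact Equiv.sum_comp ((finCongr hx).trans finSumFinEquiv.symm) f
        rw [hconv (fun i => Sum.elim (fun a => g' (hi M a) * g' (lo M a) ^ e')
          (fun a => g' (lo M a) * g' (hi M a) ^ e') i *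
          Sum.elim (fun a => g' (lo M a)) (fun a => g' (hi M a)) i ^ k)]
        simp only [Sum.elim_inl, Sum.elim_inr]
        have h1 : aeval g' W = ∑ j, (∑ s, u s * Polynomial.C ((τ j : Ω) ^ (s : ℕ))) *
            (∑ a, g' a * Polynomial.C ((τ j : Ω) ^ (a : ℕ))) ^ k := aeval_mixForm k τ m g'
        have h2 : aeval g' (pairForm K M (e' + k)) =
            ∑ a, g' (hi M a) * g' (lo M a) ^ e' * g' (lo M a) ^ k +
              ∑ a, g' (lo M a) * g' (hi M a) ^ e' * g' (hi M a) ^ k := by
          unfold pairForm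
          rw [map_sum, ← Finset.sum_add_distrib]
          refine Finset.sum_congr rfl fun a _ => ?_
          rw [map_add, map_mul, map_mul, map_pow, map_pow, aeval_X, aeval_X, pow_add, pow_add]
          ring
        rw [map_add, map_mul, h1, h2, aeval_C, pow_one, map_natCast] at hF'
        rw [← hF', add_comm]
        congr 1
        rw [Finset.mul_sum]
        refine Finset.sum_congr rfl fun j _ => ?_
        rw [show Polynomial.C (p : Ω) = (p : Polynomial Ω) from map_natCast Polynomial.C p]
        ring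
    have hallg : ∀ c, aeval g (baseGen h T dg e c) = 0 := by
      intro c
      have h1 : aeval g' (baseGen h T dg e (eΓ (eΓ.symm c))) = 0 := hall (eΓ.symm c)
      rw [Equiv.apply_symm_apply] at h1
      rw [hgfun, aeval_smul_hom (baseGen_homogeneous h T dg hdg e hdge he1 c), h1, mul_zero]
    obtain ⟨h1, h2⟩ := baseGen_zero' h T dg e g hg0 hallg
    exact ⟨h1, hTz (Polynomial Ω) _ h2⟩

end Pool.Agent.Work.MP_fcfa67_h90
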