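import Pool.Agent.Work.MP_fcfa67_h90.Weil

/-!
# Heights and restriction of scalars
-/

open MvPolynomial Pool.Agent.Work.MP_f82ddf_nt Height NumberField

namespace Pool.Agent.Work.MP_fcfa67_h90

section bounds

variable {K : Type} [Field K] [NumberField K]

theorem place_le_mulHeight₁ (x : K) (v : InfinitePlace K) : v x ≤ mulHeight₁ x := by
  classical
  rw [NumberField.mulHeight₁_eq]
  have h1 : ∀ w : InfinitePlace K, (1 : ℝ) ≤ max (w x) 1 ^ w.mult := fun w =>
    one_le_pow₀ (le_max_right _ _)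
  have h2 : (1 : ℝ) ≤ ∏ᶠ w : FinitePlace K, max (w x) 1 := one_le_finprod fun w => le_max_right _ _
  have h3 : (1 : ℝ) ≤ ∏ w ∈ Finset.univ.erase v, max (w x) 1 ^ w.mult :=
    Finset.prod_induction _ (fun y : ℝ => 1 ≤ y)
      (fun a b ha hb => one_le_mul_of_one_le_of_one_le ha hb) le_rfl fun w _ => h1 w
  rw [← Finset.mul_prod_erase _ _ (Finset.mem_univ v)]
  have h4 : v x ≤ max (v x) 1 ^ v.mult :=
    (le_max_left _ _).trans (le_self_pow₀ (le_max_right _ _) v.mult_ne_zero)
  have h5 : (0 : ℝ) ≤ max (v x) 1 ^ v.mult := zero_le_one.trans (h1 v)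
  calc v x ≤ max (v x) 1 ^ v.mult := h4
    _ ≤ max (v x) 1 ^ v.mult * ∏ w ∈ Finset.univ.erase v, max (w x) 1 ^ w.mult :=
      le_mul_of_one_le_right h5 h3
    _ ≤ _ := le_mul_of_one_le_right (mul_nonneg h5 (zero_le_one.trans h3)) h2

theorem embedding_le_mulHeight₁ (x : K) (ρ : K →+* ℂ) : ‖ρ x‖ ≤ mulHeight₁ x :=
  place_le_mulHeight₁ x (InfinitePlace.mk ρ)

theorem mulHeight₁_le {n : ℕ} (x : Fin (n + 1) → K) {i₀ : Fin (n + 1)} (h : x i₀ = 1)
    (i : Fin (n + 1)) : mulHeight₁ (x i) ≤ mulHeight x := by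
  rw [mulHeight₁_eq_mulHeight]
  have h1 : ![x i, 1] = x ∘ ![i, i₀] := by
    funext j
    fin_cases j
    · rfl
    · exact h.symm
  rw [h1]
  exact mulHeight_comp_le _ _

theorem mulHeight_integral_le {n : ℕ} (z : Fin (n + 1) → 𝓞 K) (hz : z ≠ 0) {R : ℝ}
    (hR : ∀ (w : InfinitePlace K) i, w (z i : K) ≤ R) :
    mulHeight (fun i => (z i : K)) ≤ R ^ Module.finrank ℚ K := by
  classical
  have hz' : (fun i => (z i : K)) ≠ 0 := by
    intro h0
    apply hz
    funext i
    exact RingOfIntegers.ext (congrFun h0 i)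
  rw [NumberField.mulHeight_eq hz']
  have h1 := absNorm_mul_finprod_finitePlace_eq_one hz
  have h2 : ∏ᶠ v : FinitePlace K, ⨆ i, v (z i : K) ≤ 1 := by
    have h3 : (1 : ℝ) ≤ ((Ideal.span (Set.range z)).absNorm : ℝ) := by
      have h4 : (Ideal.span (Set.range z)).absNorm ≠ 0 := by
        intro h0
        rw [h0, Nat.cast_zero, zero_mul] at h1
        exact zero_ne_one h1
      exact_mod_cast Nat.one_le_iff_ne_zero.2 h4
    have h5 : (0 : ℝ) ≤ ∏ᶠ v : FinitePlace K, ⨆ i, v (z i : K) :=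
      finprod_nonneg fun v => Real.iSup_nonneg_of_nonnegHomClass v _
    nlinarith
  have hR0 : 0 ≤ R := (apply_nonneg (Classical.arbitrary (InfinitePlace K)) _).trans (hR _ 0)
  have h3 : ∏ v : InfinitePlace K, (⨆ i, v (z i : K)) ^ v.mult ≤ R ^ Module.finrank ℚ K := by
    rw [← InfinitePlace.sum_mult_eq, ← Finset.prod_pow_eq_pow_sum]
    refine Finset.prod_le_prod (fun v _ => pow_nonneg
      (Real.iSup_nonneg_of_nonnegHomClass v _) _) fun v _ => ?_
    exact pow_le_pow_left₀ (Real.iSup_nonneg_of_nonnegHomClass v _) (ciSup_le fun i => hR v i) _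
  have h4 : (0 : ℝ) ≤ ∏ v : InfinitePlace K, (⨆ i, v (z i : K)) ^ v.mult :=
    Finset.prod_nonneg fun v _ => pow_nonneg (Real.iSup_nonneg_of_nonnegHomClass v _) _
  calc _ ≤ (∏ v : InfinitePlace K, (⨆ i, v (z i : K)) ^ v.mult) * 1 :=
        mul_le_mul_of_nonneg_left h2 h4
    _ ≤ _ := by rw [mul_one]; exact h3

variable {k : Type} [Field k] [NumberField k] [Algebra k K]

theorem place_trace_le (w : InfinitePlace k) (u : K) :
    w (Algebra.trace k K u) ≤ ∑ ρ : K →+* ℂ, ‖ρ u‖ := by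
  classical
  have _ : FiniteDimensional k K := Module.Finite.of_restrictScalars_finite ℚ k K
  let _ : Algebra k ℂ := w.embedding.toAlgebra
  have h1 : w (Algebra.trace k K u) = ‖algebraMap k ℂ (Algebra.trace k K u)‖ :=
    (w.norm_embedding_eq _).symm
  rw [h1, trace_eq_sum_embeddings ℂ]
  refine (norm_sum_le _ _).trans ?_
  have hinj : Function.Injective fun σ : K →ₐ[k] ℂ => (σ : K →+* ℂ) := AlgHom.coe_ringHom_injective
  have h2 : ∑ σ : K →ₐ[k] ℂ, ‖σ u‖ =
      ∑ ρ ∈ Finset.univ.map ⟨fun σ : K →ₐ[k] ℂ => (σ : K →+* ℂ), hinj⟩, ‖ρ u‖ := by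
    rw [Finset.sum_map]
    rfl
  rw [h2]
  exact Finset.sum_le_sum_of_subset_of_nonneg (Finset.subset_univ _) fun ρ _ _ => norm_nonneg _

end bounds

section model

variable {k K : Type} [Field k] [NumberField k] [Field K] [NumberField K] [Algebra k K] {d n : ℕ}

/-- The coordinates of the restriction of scalars of a point with `x_{i₀} = 1`. -/
noncomputable def yv (B : Module.Basis (Fin d) k K) (x : Fin (n + 1) → K) :
    Fin ((n + 1) * d + 1) → k := fun j => match (idx n d).symm j with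
  | none => 1
  | some (i, a) => B.repr (x i) a

omit [NumberField k] [NumberField K] in
theorem yv_none (B : Module.Basis (Fin d) k K) (x : Fin (n + 1) → K) :
    yv B x (idx n d none) = 1 := by
  unfold yv
  rw [Equiv.symm_apply_apply]

omit [NumberField k] [NumberField K] in
theorem yv_some (B : Module.Basis (Fin d) k K) (x : Fin (n + 1) → K) (i : Fin (n + 1))
    (a : Fin d) : yv B x (idx n d (some (i, a))) = B.repr (x i) a := by
  unfold yv
  rw [Equiv.symm_apply_apply]

/-- The height of the restriction of scalars is bounded by a power of the height. -/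
theorem height_yv (B : Module.Basis (Fin d) k K) (c : Fin d → K)
    (hc : ∀ x i, B.repr x i = Algebra.trace k K (x * c i)) :
    ∃ (C : ℝ) (a : ℕ), 0 < C ∧ ∀ (x : Fin (n + 1) → K) (i₀ : Fin (n + 1)), x i₀ = 1 →
      mulHeight (yv B x) ≤ C * mulHeight x ^ a := by
  classical
  have _ : FiniteDimensional k K := Module.Finite.of_restrictScalars_finite ℚ k K
  have halg : Algebra.IsAlgebraic ℤ K :=
    (IsFractionRing.comap_isAlgebraic_iff (A := ℤ) (K := ℚ) (C := K)).2 inferInstance
  obtain ⟨s, hs0, hs⟩ := Algebra.IsAlgebraic.exists_integral_multiples ℤ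
    (Finset.univ.image c)
  have hs' : ∀ b, IsIntegral ℤ ((s : K) * c b) := by
    intro b
    have := hs (c b) (Finset.mem_image_of_mem _ (Finset.mem_univ b))
    rwa [zsmul_eq_mul] at this
  set Cc : ℝ := ∑ ρ : K →+* ℂ, ∑ b, ‖ρ (c b)‖ with hCc
  have hCc0 : 0 ≤ Cc := Finset.sum_nonneg fun ρ _ => Finset.sum_nonneg fun b _ => norm_nonneg _
  have hsabs : (0 : ℝ) < |(s : ℝ)| := abs_pos.2 (by exact_mod_cast hs0)
  refine ⟨(|(s : ℝ)| * (1 + Cc)) ^ Module.finrank ℚ k, (n + 2) * Module.finrank ℚ k,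
    pow_pos (mul_pos hsabs (by linarith)) _, fun x i₀ hx => ?_⟩
  set H := mulHeight x with hH
  have hH1 : 1 ≤ H := one_le_mulHeight x
  choose m hm0 hmH hmint using fun i => exists_nat_le_mulHeight₁ (x i)
  set N : ℕ := ∏ i, m i with hN
  have hN0 : N ≠ 0 := Finset.prod_ne_zero_iff.2 fun i _ => hm0 i
  have hNH : (N : ℝ) ≤ H ^ (n + 1) := by
    rw [hN, Nat.cast_prod]
    calc ∏ i, (m i : ℝ) ≤ ∏ _i : Fin (n + 1), H :=
          Finset.prod_le_prod (fun i _ => Nat.cast_nonneg _) fun i _ =>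
            (hmH i).trans (mulHeight₁_le x hx i)
      _ = H ^ (n + 1) := by rw [Finset.prod_const, Finset.card_univ, Fintype.card_fin]
  have hNint : ∀ i, IsIntegral ℤ ((N : K) * x i) := by
    intro i
    have h1 : (N : K) * x i = ((∏ j ∈ Finset.univ.erase i, m j : ℕ) : K) * ((m i : K) * x i) := by
      rw [hN, ← Finset.mul_prod_erase _ _ (Finset.mem_univ i)]
      push_cast
      ring
    rw [h1]
    exact (isIntegral_algebraMap (R := ℤ) (A := K) (x := ((∏ j ∈ Finset.univ.erase i, m j : ℕ) : ℤ))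
      |>.mul (hmint i) |> fun h => by simpa using h)
  -- the integral vector
  have hzint : ∀ j, IsIntegral ℤ ((((s : ℤ) : k) * (N : k)) * yv B x j) := by
    intro j
    obtain ⟨o, rfl⟩ := (idx n d).surjective j
    rcases o with _ | ⟨i, a⟩
    · rw [yv_none, mul_one]
      have : IsIntegral ℤ (algebraMap ℤ k (s * (N : ℤ))) := isIntegral_algebraMap
      simpa using this
    · rw [yv_some, hc]
      have h1 : (((s : ℤ) : k) * (N : k)) * Algebra.trace k K (x i * c a) =
          Algebra.trace k K (((N : K) * x i) * ((s : K) * c a)) := by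
        rw [← smul_eq_mul, ← map_smul, Algebra.smul_def]
        congr 1
        simp only [map_mul, map_intCast, map_natCast]
        ring
      rw [h1]
      exact Algebra.isIntegral_trace ((hNint i).mul (hs' a))
  set z : Fin ((n + 1) * d + 1) → 𝓞 k := fun j => ⟨_, hzint j⟩ with hz
  have hsN : (((s : ℤ) : k) * (N : k)) ≠ 0 := by
    refine mul_ne_zero ?_ ?_
    · exact_mod_cast hs0
    · exact_mod_cast hN0
  have hzeq : (fun j => (z j : k)) = (((s : ℤ) : k) * (N : k)) • yv B x := rfl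
  have hz0 : z ≠ 0 := by
    intro h0
    have h1 := congrFun hzeq (idx n d none)
    rw [h0, Pi.smul_apply, yv_none, smul_eq_mul, mul_one] at h1
    apply hsN
    rw [← h1]
    rfl
  have hsw : ∀ w : InfinitePlace k, w ((s : ℤ) : k) = |(s : ℝ)| := by
    intro w
    rw [← w.norm_embedding_eq, map_intCast, Complex.norm_intCast]
  have hNw : ∀ w : InfinitePlace k, w (N : k) = N := by
    intro w
    rw [← w.norm_embedding_eq, map_natCast, Complex.norm_natCast]
  have hR : ∀ (w : InfinitePlace k) j, w (z j : k) ≤ |(s : ℝ)| * (1 + Cc) * H ^ (n + 2) := by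
    intro w j
    have hz1 : (z j : k) = (((s : ℤ) : k) * (N : k)) * yv B x j := congrFun hzeq j
    rw [hz1]
    have hHp : H ^ (n + 1) ≤ H ^ (n + 2) := pow_le_pow_right₀ hH1 (by omega)
    have hHp0 : 0 ≤ H ^ (n + 2) := pow_nonneg (zero_le_one.trans hH1) _
    obtain ⟨o, rfl⟩ := (idx n d).surjective j
    rcases o with _ | ⟨i, a⟩
    · rw [yv_none, mul_one, map_mul, hsw, hNw]
      calc |(s : ℝ)| * N ≤ |(s : ℝ)| * H ^ (n + 2) :=
            mul_le_mul_of_nonneg_left (hNH.trans hHp) hsabs.le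
        _ ≤ _ := by
          apply mul_le_mul_of_nonneg_right _ hHp0
          nlinarith
    · rw [yv_some, hc]
      have h1 : (((s : ℤ) : k) * (N : k)) * Algebra.trace k K (x i * c a) =
          Algebra.trace k K (((N : K) * x i) * ((s : K) * c a)) := by
        rw [← smul_eq_mul, ← map_smul, Algebra.smul_def]
        congr 1
        simp only [map_mul, map_intCast, map_natCast]
        ring
      rw [h1]
      refine (place_trace_le w _).trans ?_
      have h2 : ∀ ρ : K →+* ℂ, ‖ρ (((N : K) * x i) * ((s : K) * c a))‖ ≤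
          |(s : ℝ)| * H ^ (n + 2) * ∑ b, ‖ρ (c b)‖ := by
        intro ρ
        have e1 : ‖ρ (x i)‖ ≤ H := (embedding_le_mulHeight₁ (x i) ρ).trans (mulHeight₁_le x hx i)
        have e2 : ‖ρ (c a)‖ ≤ ∑ b, ‖ρ (c b)‖ :=
          Finset.single_le_sum (f := fun b => ‖ρ (c b)‖) (fun b _ => norm_nonneg _)
            (Finset.mem_univ a)
        have e3 : (N : ℝ) * ‖ρ (x i)‖ ≤ H ^ (n + 2) := by
          calc (N : ℝ) * ‖ρ (x i)‖ ≤ H ^ (n + 1) * H :=
                mul_le_mul hNH e1 (norm_nonneg _) (pow_nonneg (zero_le_one.trans hH1) _)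
            _ = H ^ (n + 2) := by ring
        rw [map_mul, map_mul, map_mul, norm_mul, norm_mul, norm_mul, map_natCast, map_intCast,
          Complex.norm_natCast, Complex.norm_intCast]
        calc (N : ℝ) * ‖ρ (x i)‖ * (|(s : ℝ)| * ‖ρ (c a)‖) ≤
              H ^ (n + 2) * (|(s : ℝ)| * ∑ b, ‖ρ (c b)‖) :=
              mul_le_mul e3 (mul_le_mul_of_nonneg_left e2 hsabs.le)
                (mul_nonneg hsabs.le (norm_nonneg _)) hHp0
          _ = _ := by ring
      refine (Finset.sum_le_sum fun ρ _ => h2 ρ).trans ?_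
      rw [← Finset.mul_sum, ← hCc]
      have : |(s : ℝ)| * H ^ (n + 2) * Cc ≤ |(s : ℝ)| * (1 + Cc) * H ^ (n + 2) := by
        have : 0 ≤ |(s : ℝ)| * H ^ (n + 2) := mul_nonneg hsabs.le hHp0
        nlinarith
      exact this
  have h1 := mulHeight_integral_le z hz0 hR
  rw [hzeq, mulHeight_smul_eq_mulHeight _ hsN] at h1
  refine h1.trans (le_of_eq ?_)
  rw [mul_pow, ← pow_mul]

end model

end Pool.Agent.Work.MP_fcfa67_h90
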