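import Pool.Agent.Work.MP_fcfa67_h90.Exists
import Pool.Agent.Work.MP_fcfa67_h90.Heights
import Pool.Agent.Work.MP_fcfa67_h90.Aniso

/-!
# The reduction of Manin's rational curve conjecture to smooth hypersurfaces
-/

open MvPolynomial Pool.Agent.Work.MP_f82ddf_nt Height NumberField

namespace Pool.Agent.Work.MP_fcfa67_h90

section general

variable {k : Type} [Field k] {n : ℕ} {S T : Set (MvPolynomial (Fin (n + 1)) k)}

theorem mk_mem_openPoints (hS : ∀ F ∈ S, ∃ d, F.IsHomogeneous d) (i₀ : Fin (n + 1))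
    (v : Fin (n + 1) → k) (hv : v ≠ 0) (h1 : ∀ F ∈ S, aeval v F = 0) (h2 : v i₀ ≠ 0) :
    Projectivization.mk k v hv ∈ openPoints S {X i₀} := by
  refine ⟨mk_mem_points hS k v hv h1, X i₀, rfl, fun h0 => h2 ?_⟩
  rw [aeval_def, eval₂_rep_iff (isHomogeneous_X k i₀), eval₂_X] at h0
  exact h0

theorem mk_mem_openPoints_one (hS : ∀ F ∈ S, ∃ d, F.IsHomogeneous d)
    (v : Fin (n + 1) → k) (hv : v ≠ 0) (h1 : ∀ F ∈ S, aeval v F = 0) :
    Projectivization.mk k v hv ∈ openPoints S {1} := by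
  refine ⟨mk_mem_points hS k v hv h1, 1, rfl, ?_⟩
  rw [map_one]
  exact one_ne_zero

variable [NumberField k]

theorem manyPoints_of_map {K : Type} [Field K] [NumberField K] {m : ℕ}
    {V : Set (PSpace K m)} (h : ManyPoints V) {W : Set (PSpace k n)}
    (ψ : PSpace K m → PSpace k n) (hinj : Set.InjOn ψ V) (hV : ∀ P ∈ V, ψ P ∈ W)
    {C : ℝ} {a : ℕ} (hH : ∀ P ∈ V, (ψ P).mulHeight ≤ C * P.mulHeight ^ a) :
    ManyPoints W := by
  classical
  obtain ⟨δ, c, hδ, hc, h⟩ := h
  set C' := max C 1 with hC'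
  have hC1 : 1 ≤ C' := le_max_right _ _
  have hC0 : 0 < C' := lt_of_lt_of_le one_pos hC1
  have ha : (0 : ℝ) < ((a + 1 : ℕ) : ℝ) := by exact_mod_cast Nat.succ_pos a
  have hH' : ∀ P ∈ V, (ψ P).mulHeight ≤ C' * P.mulHeight ^ (a + 1) := by
    intro P hP
    refine (hH P hP).trans ?_
    have h1 : (1 : ℝ) ≤ P.mulHeight := P.one_le_mulHeight
    exact mul_le_mul (le_max_left _ _) (pow_le_pow_right₀ h1 (Nat.le_succ a))
      (pow_nonneg (zero_le_one.trans h1) _) hC0.le
  refine ⟨δ / (a + 1 : ℕ), c / C' ^ (δ / (a + 1 : ℕ)), div_pos hδ ha,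
    div_pos hc (Real.rpow_pos_of_pos hC0 _), fun B₀ => ?_⟩
  obtain ⟨B, hB, A, hA, hcard⟩ := h (max B₀ 1)
  have hB1 : 1 ≤ B := (le_max_right _ _).trans hB
  have hB0 : 0 ≤ B := zero_le_one.trans hB1
  refine ⟨C' * B ^ (a + 1), ?_, A.image ψ, ?_, ?_⟩
  · calc B₀ ≤ B := (le_max_left _ _).trans hB
      _ ≤ B ^ (a + 1) := le_self_pow₀ hB1 (Nat.succ_ne_zero a)
      _ ≤ C' * B ^ (a + 1) := le_mul_of_one_le_left (pow_nonneg hB0 _) hC1
  · intro Q hQ
    rw [Finset.mem_image] at hQ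
    obtain ⟨P, hP, rfl⟩ := hQ
    refine ⟨hV P (hA P hP).1, (hH' P (hA P hP).1).trans ?_⟩
    apply mul_le_mul_of_nonneg_left _ hC0.le
    exact pow_le_pow_left₀ P.mulHeight_pos.le (hA P hP).2 _
  · rw [Finset.card_image_of_injOn fun P hP Q hQ => hinj (hA P hP).1 (hA Q hQ).1]
    refine le_trans (le_of_eq ?_) hcard
    rw [Real.mul_rpow hC0.le (pow_nonneg hB0 _), ← Real.rpow_natCast B (a + 1),
      ← Real.rpow_mul hB0, mul_div_cancel₀ _ ha.ne']
    have : C' ^ (δ / (a + 1 : ℕ)) ≠ 0 := (Real.rpow_pos_of_pos hC0 _).ne'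
    field_simp

/-- In a finite covering some member contains many points. -/
theorem manyPoints_cover {V : Set (PSpace k n)} (h : ManyPoints V) {ι : Type} [Fintype ι]
    (p : ι → Set (PSpace k n)) (hp : ∀ P ∈ V, ∃ j, P ∈ p j) :
    ∃ j, ManyPoints {P | P ∈ V ∧ P ∈ p j} := by
  classical
  obtain ⟨δ, c, hδ, hc, h⟩ := h
  by_contra hcon
  have hn : (0 : ℝ) < (Fintype.card ι + 1 : ℕ) := by exact_mod_cast Nat.succ_pos _
  have hcon' : ∀ j, ∃ B₀ : ℝ, ∀ B, B₀ ≤ B → ∀ A : Finset (PSpace k n),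
      (∀ P ∈ A, P ∈ {P | P ∈ V ∧ P ∈ p j} ∧ P.mulHeight ≤ B) →
        (A.card : ℝ) < c / (Fintype.card ι + 1 : ℕ) * B ^ δ := by
    intro j
    by_contra hj
    push Not at hj
    exact hcon ⟨j, δ, c / (Fintype.card ι + 1 : ℕ), hδ, div_pos hc hn, hj⟩
  choose B₁ hB₁ using hcon'
  obtain ⟨B, hB, A, hA, hcard⟩ := h (max 1 (∑ i, |B₁ i|))
  have hBi : ∀ i, B₁ i ≤ B := fun i =>
    (le_abs_self _).trans ((Finset.single_le_sum (f := fun i => |B₁ i|)
      (fun i _ => abs_nonneg _) (Finset.mem_univ i)).trans ((le_max_right _ _).trans hB))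
  have hB1 : 1 ≤ B := (le_max_left _ _).trans hB
  have hBp : 0 < c * B ^ δ := mul_pos hc (Real.rpow_pos_of_pos (zero_lt_one.trans_le hB1) _)
  have h1 : ∀ i, ((A.filter fun P => P ∈ p i).card : ℝ) ≤
      c / (Fintype.card ι + 1 : ℕ) * B ^ δ := by
    intro i
    refine (hB₁ i B (hBi i) (A.filter fun P => P ∈ p i) fun P hP => ?_).le
    rw [Finset.mem_filter] at hP
    exact ⟨⟨(hA P hP.1).1, hP.2⟩, (hA P hP.1).2⟩
  have h2 : A ⊆ Finset.univ.biUnion fun i => A.filter fun P => P ∈ p i := by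
    intro P hP
    obtain ⟨i, hi⟩ := hp P (hA P hP).1
    rw [Finset.mem_biUnion]
    exact ⟨i, Finset.mem_univ i, Finset.mem_filter.2 ⟨hP, hi⟩⟩
  have h3 : (A.card : ℝ) ≤ ∑ i, ((A.filter fun P => P ∈ p i).card : ℝ) := by
    exact_mod_cast (Finset.card_le_card h2).trans Finset.card_biUnion_le
  have h4 : ∑ i : ι, ((A.filter fun P => P ∈ p i).card : ℝ) ≤
      ∑ _i : ι, c / (Fintype.card ι + 1 : ℕ) * B ^ δ :=
    Finset.sum_le_sum fun i _ => h1 i
  rw [Finset.sum_const, Finset.card_univ, nsmul_eq_mul] at h4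
  have h5 : (Fintype.card ι : ℝ) * (c / (Fintype.card ι + 1 : ℕ) * B ^ δ) < c * B ^ δ := by
    rw [← mul_assoc, ← mul_div_assoc, div_mul_eq_mul_div, div_lt_iff₀ hn]
    push_cast
    nlinarith
  linarith

end general

section affine

/-! ### Reduction to the complement of a coordinate hyperplane -/

variable {K : Type} [Field K] {n : ℕ}

/-- The equations for the complement of `x_{i₀} G = 0`. -/
def SAff (S : Set (MvPolynomial (Fin (n + 1)) K)) (G : MvPolynomial (Fin (n + 1)) K)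
    (i₀ : Fin (n + 1)) (e : ℕ) : Set (MvPolynomial (Fin (n + 1 + 1)) K) :=
  {P | (∃ F ∈ S, P = rename Fin.castSucc F) ∨
    P = X (Fin.last (n + 1)) * rename Fin.castSucc G - X (Fin.castSucc i₀) ^ (e + 1)}

theorem SAff_homogeneous {S : Set (MvPolynomial (Fin (n + 1)) K)}
    (hS : ∀ F ∈ S, ∃ e, F.IsHomogeneous e) {G : MvPolynomial (Fin (n + 1)) K} {e : ℕ}
    (hG : G.IsHomogeneous e) (i₀ : Fin (n + 1)) :
    ∀ P ∈ SAff S G i₀ e, ∃ e, P.IsHomogeneous e := by
  rintro P (⟨F, hF, rfl⟩ | rfl)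
  · obtain ⟨f, hf⟩ := hS F hF
    exact ⟨f, hf.rename_isHomogeneous⟩
  · refine ⟨e + 1, IsHomogeneous.sub ?_ ?_⟩
    · have h1 := (isHomogeneous_X K (Fin.last (n + 1))).mul
        (hG.rename_isHomogeneous (f := Fin.castSucc))
      rwa [add_comm 1 e] at h1
    · have h1 := (isHomogeneous_X K (Fin.castSucc i₀)).pow (e + 1)
      rwa [one_mul] at h1

theorem curve_affine {S T : Set (MvPolynomial (Fin (n + 1)) K)}
    {G : MvPolynomial (Fin (n + 1)) K} (hGT : G ∈ T) {e : ℕ} (hG : G.IsHomogeneous e)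
    {i₀ : Fin (n + 1)} (h : HasRationalCurve (SAff S G i₀ e) {X (Fin.castSucc i₀)}) :
    HasRationalCurve S T := by
  obtain ⟨g, hg, hgS, P, hP0, hP⟩ := h
  rw [Set.mem_singleton_iff.1 hP0, aeval_X] at hP
  set x : Fin (n + 1) → Polynomial K := g ∘ Fin.castSucc with hx
  have hS' : ∀ F ∈ S, aeval x F = 0 := by
    intro F hF
    have := hgS _ (Or.inl ⟨F, hF, rfl⟩)
    rwa [aeval_rename] at this
  have hu : g (Fin.last (n + 1)) * aeval x G = x i₀ ^ (e + 1) := by
    have := hgS _ (Or.inr rfl)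
    rw [map_sub, map_mul, map_pow, aeval_X, aeval_X, aeval_rename, sub_eq_zero] at this
    exact this
  have hx0 : x i₀ ≠ 0 := hP
  have hGx : aeval x G ≠ 0 := by
    intro h0
    rw [h0, mul_zero] at hu
    exact pow_ne_zero _ hx0 hu.symm
  refine ⟨x, ?_, hS', G, hGT, hGx⟩
  rintro ⟨v, u, hvu⟩
  have hxv : x = fun i => u * Polynomial.C (v i) := funext fun i => by rw [hvu i, mul_comm]
  have hu0 : u ≠ 0 := by
    rintro rfl
    apply hx0
    rw [hvu, mul_zero]
  have hGv : aeval x G = u ^ e * Polynomial.C (aeval v G) := by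
    rw [hxv, aeval_smul_hom hG]
    congr 1
    have h1 := (aeval_algebraMap_apply (Polynomial K) v G)
    rw [Polynomial.algebraMap_eq] at h1
    exact h1
  have hGv0 : aeval v G ≠ 0 := by
    intro h0
    apply hGx
    rw [hGv, h0, Polynomial.C_0, mul_zero]
  apply hg
  refine ⟨Fin.snoc (α := fun _ => K) v (v i₀ ^ (e + 1) / aeval v G), u, fun j => ?_⟩
  refine Fin.lastCases ?_ (fun i => ?_) j
  · rw [Fin.snoc_last]
    have hC0 : Polynomial.C (aeval v G) ≠ 0 := fun h0 => hGv0 (by simpa using h0)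
    apply mul_right_cancel₀ (mul_ne_zero (pow_ne_zero e hu0) hC0)
    rw [← hGv, hu, hvu, hGv, mul_pow]
    have h2 : Polynomial.C (v i₀ ^ (e + 1) / aeval v G) * Polynomial.C (aeval v G) =
        Polynomial.C (v i₀) ^ (e + 1) := by
      rw [← Polynomial.C_mul, div_mul_cancel₀ _ hGv0, Polynomial.C_pow]
    linear_combination -(u ^ (e + 1)) * h2
  · rw [Fin.snoc_castSucc]
    exact hvu i

variable [NumberField K]

theorem manyPoints_affine {S T : Set (MvPolynomial (Fin (n + 1)) K)}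
    (hS : ∀ F ∈ S, ∃ e, F.IsHomogeneous e) (hT : ∀ F ∈ T, ∃ e, F.IsHomogeneous e)
    (h : ManyPoints (openPoints S T)) :
    ∃ (G : MvPolynomial (Fin (n + 1)) K) (i₀ : Fin (n + 1)) (e : ℕ), G ∈ T ∧ G.IsHomogeneous e ∧
      ManyPoints (openPoints (SAff S G i₀ e) {X (Fin.castSucc i₀)}) := by
  classical
  obtain ⟨T', hT'T, hT'⟩ := exists_finite_subset' T
  obtain ⟨⟨G, i₀⟩, hm⟩ := manyPoints_cover h
    (fun j : T' × Fin (n + 1) => {P | aeval P.rep j.1.1 ≠ 0 ∧ P.rep j.2 ≠ 0}) (by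
      rintro P ⟨-, G, hG, hGP⟩
      have h1 : ∃ G' ∈ T', aeval P.rep G' ≠ 0 := by
        by_contra hcon
        push Not at hcon
        exact hGP (hT' K P.rep hcon G hG)
      obtain ⟨G', hG', hG'P⟩ := h1
      obtain ⟨i, hi⟩ := Function.ne_iff.1 P.rep_nonzero
      exact ⟨(⟨G', hG'⟩, i), hG'P, hi⟩)
  have hGT : G.1 ∈ T := hT'T G.2
  obtain ⟨e, he⟩ := hT G.1 hGT
  refine ⟨G.1, i₀, e, hGT, he, ?_⟩
  -- the polynomials defining the map
  set p : Fin (n + 1 + 1) → MvPolynomial (Fin (n + 1)) K :=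
    Fin.snoc (α := fun _ => MvPolynomial (Fin (n + 1)) K) (fun j => G.1 * X j)
      (X i₀ ^ (e + 1)) with hp
  have hplast : p (Fin.last (n + 1)) = X i₀ ^ (e + 1) := by rw [hp, Fin.snoc_last]
  have hpcast : ∀ j, p (Fin.castSucc j) = G.1 * X j := by
    intro j
    rw [hp, Fin.snoc_castSucc]
  have hph : ∀ i, (p i).IsHomogeneous (e + 1) := by
    intro i
    refine Fin.lastCases ?_ (fun j => ?_) i
    · rw [hplast]
      have := (isHomogeneous_X K i₀).pow (e + 1)
      rwa [one_mul] at this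
    · rw [hpcast]
      exact he.mul (isHomogeneous_X K j)
  obtain ⟨C, hC, hbd⟩ := mulHeight_eval_le' hph
  set w : PSpace K n → Fin (n + 1 + 1) → K := fun P j => (p j).eval P.rep with hw
  have hwlast : ∀ P, w P (Fin.last (n + 1)) = P.rep i₀ ^ (e + 1) := by
    intro P
    simp only [hw]
    rw [hplast, map_pow, eval_X]
  have hwcast : ∀ P j, w P (Fin.castSucc j) = aeval P.rep G.1 * P.rep j := by
    intro P j
    simp only [hw]
    rw [hpcast, map_mul, eval_X]
    rfl
  have hw0 : ∀ P, P.rep i₀ ≠ 0 → w P ≠ 0 := by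
    intro P hP h0
    have h1 := congrFun h0 (Fin.last (n + 1))
    rw [hwlast] at h1
    exact pow_ne_zero _ hP h1
  have hone : (fun _ => 1 : Fin (n + 1 + 1) → K) ≠ 0 := fun h0 => one_ne_zero (congrFun h0 0)
  let ψ : PSpace K n → PSpace K (n + 1) := fun P =>
    if h : w P = 0 then Projectivization.mk K _ hone else Projectivization.mk K (w P) h
  have hψ : ∀ P (hP : P.rep i₀ ≠ 0), ψ P = Projectivization.mk K (w P) (hw0 P hP) := by
    intro P hP
    exact dif_neg (hw0 P hP)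
  refine manyPoints_of_map hm ψ ?_ ?_ (C := C) (a := e + 1) ?_
  · rintro P ⟨-, hGP, hP⟩ Q ⟨-, hGQ, hQ⟩ hPQ
    rw [hψ P hP, hψ Q hQ, Projectivization.mk_eq_mk_iff'] at hPQ
    obtain ⟨s, hs⟩ := hPQ
    rw [← P.mk_rep, ← Q.mk_rep, Projectivization.mk_eq_mk_iff']
    refine ⟨s * aeval Q.rep G.1 / aeval P.rep G.1, ?_⟩
    funext j
    have h1 := congrFun hs (Fin.castSucc j)
    rw [Pi.smul_apply, hwcast, hwcast, smul_eq_mul] at h1
    rw [Pi.smul_apply, smul_eq_mul, div_mul_eq_mul_div, div_eq_iff hGP]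
    linear_combination h1
  · rintro P ⟨⟨hPS, -⟩, hGP, hP⟩
    rw [hψ P hP]
    have hwc : w P ∘ Fin.castSucc = fun j => aeval P.rep G.1 * P.rep j := by
      funext j
      exact hwcast P j
    apply mk_mem_openPoints (SAff_homogeneous hS he i₀)
    · rintro _ (⟨F, hF, rfl⟩ | rfl)
      · obtain ⟨f, hf⟩ := hS F hF
        rw [aeval_rename, hwc, aeval_smul_hom hf, hPS F hF, mul_zero]
      · rw [map_sub, map_mul, map_pow, aeval_X, aeval_X, aeval_rename, hwc, aeval_smul_hom he,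
          hwlast, hwcast]
        ring
    · rw [hwcast]
      exact mul_ne_zero hGP hP
  · rintro P ⟨-, -, hP⟩
    rw [hψ P hP, Projectivization.mulHeight_mk]
    refine (hbd P.rep).trans (le_of_eq ?_)
    rw [← Projectivization.mulHeight_mk P.rep_nonzero, P.mk_rep]

end affine

section descend

variable {k K : Type} [Field k] [NumberField k] [Field K] [NumberField K] [Algebra k K]
  {d n : ℕ}

omit [NumberField k] [NumberField K] in
theorem yv_ne_zero (B : Module.Basis (Fin d) k K) (x : Fin (n + 1) → K) : yv B x ≠ 0 := by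
  intro h0
  have h1 := congrFun h0 (idx n d none)
  rw [yv_none] at h1
  exact one_ne_zero h1

omit [NumberField k] [NumberField K] in
theorem aeval_yv_xf (B : Module.Basis (Fin d) k K) (x : Fin (n + 1) → K) (i : Fin (n + 1)) :
    aeval (fun j => algebraMap k K (yv B x j)) (xf B i) = x i := by
  unfold xf
  rw [map_sum]
  conv_rhs => rw [← B.sum_repr (x i)]
  refine Finset.sum_congr rfl fun a _ => ?_
  rw [map_mul, aeval_C, aeval_X, yv_some, Algebra.smul_def, mul_comm]
  rfl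

/-- Points on the restriction of scalars. -/
theorem manyPoints_descend {S : Set (MvPolynomial (Fin (n + 1)) K)}
    (hS : ∀ F ∈ S, ∃ e, F.IsHomogeneous e) (B : Module.Basis (Fin d) k K) (c : Fin d → K)
    (hc : ∀ x i, B.repr x i = Algebra.trace k K (x * c i)) (i₀ : Fin (n + 1))
    (h : ManyPoints (openPoints S {X i₀})) :
    ManyPoints (openPoints (SRes B S i₀) {X 0}) := by
  classical
  obtain ⟨C, a, -, hH⟩ := height_yv (n := n) B c hc
  have hrep : ∀ P ∈ openPoints S {X i₀}, P.rep i₀ ≠ 0 := by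
    rintro P ⟨-, G, hG, hGP⟩
    rw [Set.mem_singleton_iff.1 hG, aeval_X] at hGP
    exact hGP
  set x : PSpace K n → Fin (n + 1) → K := fun P => (P.rep i₀)⁻¹ • P.rep with hx
  have hx1 : ∀ P : PSpace K n, P.rep i₀ ≠ 0 → x P i₀ = 1 := by
    intro P hP
    rw [hx]
    simp only [Pi.smul_apply, smul_eq_mul]
    exact inv_mul_cancel₀ hP
  refine manyPoints_of_map h (fun P => Projectivization.mk k (yv B (x P)) (yv_ne_zero B _))
    ?_ ?_ (C := C) (a := a) ?_
  · intro P hP' Q hQ' hPQ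
    have hP := hrep P hP'
    have hQ := hrep Q hQ'
    simp only at hPQ
    rw [Projectivization.mk_eq_mk_iff'] at hPQ
    obtain ⟨s, hs⟩ := hPQ
    have hs1 : s = 1 := by
      have h1 := congrFun hs (idx n d none)
      rw [Pi.smul_apply, yv_none, yv_none, smul_eq_mul, mul_one] at h1
      exact h1
    have hxx : x Q = x P := by
      funext i
      apply B.repr.injective
      ext a
      have h1 := congrFun hs (idx n d (some (i, a)))
      rw [Pi.smul_apply, yv_some, yv_some, hs1, one_smul] at h1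
      exact h1
    rw [← P.mk_rep, ← Q.mk_rep, Projectivization.mk_eq_mk_iff']
    refine ⟨P.rep i₀ * (Q.rep i₀)⁻¹, ?_⟩
    have h1 : P.rep = P.rep i₀ • x P := by
      rw [hx]
      simp only
      rw [smul_smul, mul_inv_cancel₀ hP, one_smul]
    conv_rhs => rw [h1, ← hxx, hx]
    rw [mul_smul]
  · intro P hP'
    have hP := hrep P hP'
    have hPS := hP'.1
    have hev : ∀ Q : MvPolynomial (Fin ((n + 1) * d + 1)) K,
        aeval (fun j => algebraMap k K (yv B (x P) j)) Q =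
          ∑ b, B b * algebraMap k K (aeval (yv B (x P)) (comp B b Q)) := fun Q =>
      comp_eval B (algebraMap k K) (fun _ => rfl) (yv B (x P)) Q
    have hxF : ∀ F : MvPolynomial (Fin (n + 1)) K,
        aeval (fun j => algebraMap k K (yv B (x P) j)) (aeval (xf B) F) = aeval (x P) F := by
      intro F
      rw [← AlgHom.comp_apply, comp_aeval]
      congr 2
      funext i
      exact aeval_yv_xf B (x P) i
    have hscale : ∀ F : MvPolynomial (Fin (n + 1)) K, ∀ e, F.IsHomogeneous e →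
        aeval (x P) F = (P.rep i₀)⁻¹ ^ e * aeval P.rep F := by
      intro F e he
      exact eval₂_smul_hom he (algebraMap K K) P.rep (P.rep i₀)⁻¹
    apply mk_mem_openPoints (SRes_homogeneous B hS i₀)
    · rintro _ (⟨b, rfl⟩ | ⟨F, hF, b, rfl⟩)
      · apply basis_indep_field B (a := fun b => aeval (yv B (x P))
          (comp B b (xf B i₀ - X (idx n d none))))
        rw [← hev, map_sub, aeval_X, aeval_yv_xf, hx1 P hP, yv_none, map_one, sub_self]
      · apply basis_indep_field B (a := fun b => aeval (yv B (x P))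
          (comp B b (aeval (xf B) F)))
        obtain ⟨e, he⟩ := hS F hF
        rw [← hev, hxF, hscale F e he, hPS F hF, mul_zero]
    · rw [← idx_none n d, yv_none]
      exact one_ne_zero
  · intro P hP'
    have hP := hrep P hP'
    rw [Projectivization.mulHeight_mk]
    refine (hH (x P) i₀ (hx1 P hP)).trans (le_of_eq ?_)
    rw [hx]
    simp only
    rw [mulHeight_smul_eq_mulHeight _ (inv_ne_zero hP), ← Projectivization.mulHeight_mk P.rep_nonzero,
      P.mk_rep]

end descend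

section cpt

/-! ### Removal of the open subset -/

variable {k : Type} [Field k] [NumberField k] {n : ℕ}

theorem manyPoints_cpt {S : Set (MvPolynomial (Fin (n + 1)) k)}
    (hS : ∀ F ∈ S, ∃ e, F.IsHomogeneous e) {N : MvPolynomial (Fin n) k} {e : ℕ}
    (hN : N.IsHomogeneous (e + 1)) (h : ManyPoints (openPoints S {X 0})) :
    ManyPoints (openPoints (SCpt S N e) {1}) := by
  classical
  have hrep : ∀ P ∈ openPoints S {X 0}, P.rep 0 ≠ 0 := by
    rintro P ⟨-, G, hG, hGP⟩
    rw [Set.mem_singleton_iff.1 hG, aeval_X] at hGP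
    exact hGP
  set p : Fin (n + 1 + 1) → MvPolynomial (Fin (n + 1)) k :=
    Fin.snoc (α := fun _ => MvPolynomial (Fin (n + 1)) k) (fun j => X 0 ^ e * X j)
      (rename Fin.succ N) with hp
  have hplast : p (Fin.last (n + 1)) = rename Fin.succ N := by rw [hp, Fin.snoc_last]
  have hpcast : ∀ j, p (Fin.castSucc j) = X 0 ^ e * X j := by
    intro j
    rw [hp, Fin.snoc_castSucc]
  have hph : ∀ i, (p i).IsHomogeneous (e + 1) := by
    intro i
    refine Fin.lastCases ?_ (fun j => ?_) i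
    · rw [hplast]
      exact hN.rename_isHomogeneous
    · rw [hpcast]
      have h1 := ((isHomogeneous_X k (0 : Fin (n + 1))).pow e).mul (isHomogeneous_X k j)
      rwa [one_mul] at h1
  obtain ⟨C, hC, hbd⟩ := mulHeight_eval_le' hph
  set w : PSpace k n → Fin (n + 1 + 1) → k := fun P j => (p j).eval P.rep with hw
  have hwlast : ∀ P, w P (Fin.last (n + 1)) = aeval (P.rep ∘ Fin.succ) N := by
    intro P
    simp only [hw]
    rw [hplast, ← aeval_rename]
    rfl
  have hwcast : ∀ P j, w P (Fin.castSucc j) = P.rep 0 ^ e * P.rep j := by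
    intro P j
    simp only [hw]
    rw [hpcast, map_mul, map_pow, eval_X, eval_X]
  have hw0 : ∀ P, P.rep 0 ≠ 0 → w P ≠ 0 := by
    intro P hP h0
    have h1 := congrFun h0 (Fin.castSucc 0)
    rw [hwcast] at h1
    exact mul_ne_zero (pow_ne_zero _ hP) hP h1
  have hone : (fun _ => 1 : Fin (n + 1 + 1) → k) ≠ 0 := fun h0 => one_ne_zero (congrFun h0 0)
  let ψ : PSpace k n → PSpace k (n + 1) := fun P =>
    if h : w P = 0 then Projectivization.mk k _ hone else Projectivization.mk k (w P) h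
  have hψ : ∀ P (hP : P.rep 0 ≠ 0), ψ P = Projectivization.mk k (w P) (hw0 P hP) := by
    intro P hP
    exact dif_neg (hw0 P hP)
  refine manyPoints_of_map h ψ ?_ ?_ (C := C) (a := e + 1) ?_
  · intro P hP' Q hQ' hPQ
    have hP := hrep P hP'
    have hQ := hrep Q hQ'
    rw [hψ P hP, hψ Q hQ, Projectivization.mk_eq_mk_iff'] at hPQ
    obtain ⟨s, hs⟩ := hPQ
    rw [← P.mk_rep, ← Q.mk_rep, Projectivization.mk_eq_mk_iff']
    refine ⟨s * Q.rep 0 ^ e / P.rep 0 ^ e, ?_⟩
    funext j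
    have h1 := congrFun hs (Fin.castSucc j)
    rw [Pi.smul_apply, hwcast, hwcast, smul_eq_mul] at h1
    rw [Pi.smul_apply, smul_eq_mul, div_mul_eq_mul_div, div_eq_iff (pow_ne_zero e hP)]
    linear_combination h1
  · intro P hP'
    have hP := hrep P hP'
    have hPS := hP'.1
    rw [hψ P hP]
    have hwc : w P ∘ Fin.castSucc = fun j => P.rep 0 ^ e * P.rep j := by
      funext j
      exact hwcast P j
    apply mk_mem_openPoints_one (SCpt_homogeneous hS hN)
    rintro _ (⟨F, hF, rfl⟩ | rfl)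
    · obtain ⟨f, hf⟩ := hS F hF
      rw [aeval_rename, hwc, aeval_smul_hom hf, hPS F hF, mul_zero]
    · have h2 : (w P ∘ Fin.castSucc) ∘ Fin.succ =
          fun j => P.rep 0 ^ e * (P.rep ∘ Fin.succ) j := by
        rw [hwc]
        rfl
      rw [map_sub, map_mul, map_pow, aeval_X, aeval_X, aeval_rename, aeval_rename, h2,
        aeval_smul_hom hN, hwlast, hwcast]
      ring
  · intro P hP'
    have hP := hrep P hP'
    rw [hψ P hP, Projectivization.mulHeight_mk]
    refine (hbd P.rep).trans (le_of_eq ?_)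
    rw [← Projectivization.mulHeight_mk P.rep_nonzero, P.mk_rep]

end cpt

section embed

variable {k : Type} [Field k] [NumberField k] {n M : ℕ}

omit [NumberField k] in
theorem ext0_ne_zero (h : n ≤ M) {v : Fin (n + 1) → k} (hv : v ≠ 0) : ext0 M v ≠ 0 := by
  intro h0
  apply hv
  funext i
  rw [← ext0_incl h v i, h0]
  rfl

theorem mulHeight_ext0 (v : Fin (n + 1) → k) : mulHeight (ext0 M v) ≤ mulHeight v := by
  have h1 : ext0 M v = (Sum.elim v (0 : Fin 1 → k)) ∘ fun i : Fin (2 * M + 1 + 1) =>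
      if h : (i : ℕ) < n + 1 then Sum.inl ⟨i, h⟩ else Sum.inr 0 := by
    funext i
    unfold ext0
    rw [Function.comp_apply]
    split_ifs <;> rfl
  rw [h1]
  refine (mulHeight_comp_le _ _).trans (le_of_eq ?_)
  exact mulHeight_sumElim_zero_eq v

theorem manyPoints_embed (h : n ≤ M) {S : Set (MvPolynomial (Fin (n + 1)) k)}
    {F : MvPolynomial (Fin (2 * M + 1 + 1)) k} {d : ℕ} (hF : F.IsHomogeneous d)
    (hSF : ∀ v : Fin (n + 1) → k, (∀ G ∈ S, aeval v G = 0) → aeval (ext0 M v) F = 0)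
    (hmany : ManyPoints (openPoints S {1})) : ManyPoints (openPoints {F} {1}) := by
  refine manyPoints_of_map hmany
    (fun P => Projectivization.mk k (ext0 M P.rep) (ext0_ne_zero h P.rep_nonzero)) ?_ ?_ (C := 1)
    (a := 1) ?_
  · intro P _ Q _ hPQ
    simp only at hPQ
    rw [Projectivization.mk_eq_mk_iff'] at hPQ
    obtain ⟨s, hs⟩ := hPQ
    rw [← P.mk_rep, ← Q.mk_rep, Projectivization.mk_eq_mk_iff']
    refine ⟨s, ?_⟩
    funext i
    have := congrFun hs (incl h i)
    simp only [Pi.smul_apply] at this ⊢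
    rwa [ext0_incl, ext0_incl] at this
  · rintro P ⟨hPS, -⟩
    apply mk_mem_openPoints_one
    · intro G hG
      rw [Set.mem_singleton_iff.1 hG]
      exact ⟨d, hF⟩
    · intro G hG
      rw [Set.mem_singleton_iff.1 hG]
      exact hSF _ hPS
  · intro P _
    rw [Projectivization.mulHeight_mk, one_mul, pow_one]
    refine (mulHeight_ext0 _).trans (le_of_eq ?_)
    rw [← Projectivization.mulHeight_mk P.rep_nonzero, P.mk_rep]

omit [NumberField k] in
theorem curve_embed (h : n ≤ M) {S : Set (MvPolynomial (Fin (n + 1)) k)}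
    {F : MvPolynomial (Fin (2 * M + 1 + 1)) k}
    (hcur : ∀ g : Fin (2 * M + 1 + 1) → Polynomial k, Nonconstant g → aeval g F = 0 →
        (∀ j : Fin (2 * M + 1 + 1), ¬ (j : ℕ) < n + 1 → g j = 0) ∧
          ∀ G ∈ S, aeval (g ∘ incl h) G = 0)
    (hc : HasRationalCurve {F} {1}) : HasRationalCurve S {1} := by
  obtain ⟨g, hg, hgF, -⟩ := hc
  obtain ⟨h1, h2⟩ := hcur g hg (hgF F rfl)
  refine ⟨g ∘ incl h, ?_, h2, 1, rfl, ?_⟩
  · rintro ⟨v, u, hvu⟩
    apply hg
    refine ⟨ext0 M v, u, fun j => ?_⟩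
    by_cases hj : (j : ℕ) < n + 1
    · have h3 := hvu ⟨j, hj⟩
      have h4 : incl h (⟨j, hj⟩ : Fin (n + 1)) = j := Fin.ext rfl
      rw [Function.comp_apply, h4] at h3
      rw [h3, ← ext0_incl h v, h4]
    · rw [h1 j hj, ext0_zero v j hj, Polynomial.C_0, zero_mul]
  · rw [map_one]
    exact one_ne_zero

end embed

/-- Reduction of the general case to closed subvarieties over the small field, without open
subset: the first steps. -/
theorem exists_projective (k : Type) [Field k] [NumberField k]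
    (K : Type) [Field K] [NumberField K] [Algebra k K] (n : ℕ)
    (S T : Set (MvPolynomial (Fin (n + 1)) K)) (hS : ∀ F ∈ S, ∃ e, F.IsHomogeneous e)
    (hT : ∀ G ∈ T, ∃ e, G.IsHomogeneous e) (hm : ManyPoints (openPoints S T)) :
    ∃ (m : ℕ) (S' : Set (MvPolynomial (Fin (m + 1)) k)), (∀ F ∈ S', ∃ e, F.IsHomogeneous e) ∧
      ManyPoints (openPoints S' {1}) ∧ (HasRationalCurve S' {1} → HasRationalCurve S T) := by
  have _ : FiniteDimensional k K := Module.Finite.of_restrictScalars_finite ℚ k K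
  obtain ⟨G, i₀, e, hGT, hG, hm1⟩ := manyPoints_affine hS hT hm
  have hS1 := SAff_homogeneous hS hG i₀
  obtain ⟨B, c, hc⟩ := exists_basis_trace k K
  have hm2 := manyPoints_descend hS1 B c hc _ hm1
  have hS2 := SRes_homogeneous B hS1 (Fin.castSucc i₀)
  obtain ⟨f, N, hf, hN, han⟩ := exists_aniso k ((n + 1 + 1) * Module.finrank k K)
  obtain ⟨f', rfl⟩ : ∃ f', f = f' + 1 := ⟨f - 1, by omega⟩
  refine ⟨_, _, SCpt_homogeneous hS2 hN, manyPoints_cpt hS2 hN hm2, fun hcur => ?_⟩
  exact curve_affine hGT hG (curve_descend B (curve_cpt (by omega) hN han hcur))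

/-- The reduction. -/
theorem manin_reduction (k : Type) [Field k] [NumberField k] (N₀ : ℕ) (D₀ : ℕ → ℕ)
    (H : ∀ (n d : ℕ) (F : MvPolynomial (Fin (n + 1)) k), N₀ ≤ n → D₀ n ≤ d →
      F.IsHomogeneous d → Nonsingular F → CurvesAtLast F →
        ManyPoints (openPoints {F} {1}) → HasRationalCurve {F} {1})
    (K : Type) [Field K] [NumberField K] [Algebra k K] (n : ℕ)
    (S T : Set (MvPolynomial (Fin (n + 1)) K)) (hS : ∀ F ∈ S, ∃ e, F.IsHomogeneous e)
    (hT : ∀ G ∈ T, ∃ e, G.IsHomogeneous e) (hm : ManyPoints (openPoints S T)) :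
    HasRationalCurve S T := by
  obtain ⟨m, S', hS', hm', hcur⟩ := exists_projective k K n S T hS hT hm
  apply hcur
  obtain ⟨d, F, h1, h2, h3, h4, h5⟩ := exists_hypersurface_curves S' hS' (max m N₀)
    (le_max_left _ _) (D₀ (2 * max m N₀ + 1))
  apply curve_embed (le_max_left m N₀) (h5 k)
  refine H _ d F (by have := le_max_right m N₀; omega) h1 h2 h3 ?_
    (manyPoints_embed (le_max_left m N₀) h2 h4 hm')
  intro Ω _ _ g hg hgF
  refine (h5 Ω g hg hgF).1 _ ?_
  have := le_max_left m N₀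
  simp only [Fin.val_last]
  omega

end Pool.Agent.Work.MP_fcfa67_h90
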