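import Pool.Agent.Work.MP_fcfa67_h90.Main
import Pool.Agent.Work.MP_fcfa67_h90.Defs
import Pool.Agent.Work.MP_fcfa67_h90.BaseGen
import Pool.Agent.Work.MP_f82ddf_nt.HF.Good

/-!
# Every projective variety lies in a smooth hypersurface with the same rational curves
-/

open MvPolynomial Pool.Agent.Work.MP_f82ddf_nt

namespace Pool.Agent.Work.MP_fcfa67_h90

section aux

variable {K : Type} {A : Type*} [Field K] [CommRing A] [Algebra K A]

theorem aeval_smul_hom {n : ℕ} {F : MvPolynomial (Fin n) K} {d : ℕ} (hF : F.IsHomogeneous d)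
    (g : Fin n → A) (h : A) : aeval (fun i => h * g i) F = h ^ d * aeval g F := by
  rw [aeval_def, aeval_def, eval₂_eq', eval₂_eq', Finset.mul_sum]
  refine Finset.sum_congr rfl fun m hm => ?_
  have h1 : ∑ i, m i = d := by
    have h2 := hF (mem_support_iff.1 hm)
    rw [← h2, Finsupp.weight_apply, Finsupp.sum_fintype _ _ (fun i => by simp)]
    simp
  simp only [mul_pow]
  rw [Finset.prod_mul_distrib, Finset.prod_pow_eq_pow_sum, h1]
  ring

theorem aeval_natDegree {Ω : Type*} [Field Ω] [Algebra K Ω] {n : ℕ}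
    {F : MvPolynomial (Fin (n + 1)) K} {d : ℕ} (hF : F.IsHomogeneous d)
    (g : Fin (n + 1) → Polynomial Ω) {δ : ℕ} (hg : ∀ i, (g i).natDegree ≤ δ) :
    (aeval g F).natDegree ≤ d * δ := by
  rw [aeval_def, eval₂_eq']
  apply Polynomial.natDegree_sum_le_of_forall_le
  intro m hm
  have h1 : ∑ i, m i = d := by
    have h2 := hF (mem_support_iff.1 hm)
    rw [← h2, Finsupp.weight_apply, Finsupp.sum_fintype _ _ (fun i => by simp)]
    simp
  rw [IsScalarTower.algebraMap_apply K Ω (Polynomial Ω), Polynomial.algebraMap_eq]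
  refine (Polynomial.natDegree_C_mul_le _ _).trans ?_
  refine (Polynomial.natDegree_prod_le _ _).trans ?_
  rw [← h1, Finset.sum_mul]
  refine Finset.sum_le_sum fun i _ => ?_
  exact Polynomial.natDegree_pow_le.trans (Nat.mul_le_mul_left _ (hg i))

theorem baseGen_zero' [IsDomain A] {n M : ℕ} (h : n ≤ M)
    (T : Finset (MvPolynomial (Fin (n + 1)) K)) (dg : T → ℕ) (e : ℕ)
    (w : Fin (2 * M + 1 + 1) → A) (hw : w ≠ 0) (hz : ∀ c, aeval w (baseGen h T dg e c) = 0) :
    (∀ j : Fin (2 * M + 1 + 1), ¬ (j : ℕ) < n + 1 → w j = 0) ∧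
      ∀ G ∈ T, aeval (w ∘ incl h) G = 0 := by
  obtain ⟨l, hl⟩ : ∃ l, w l ≠ 0 := by
    by_contra hcon
    push Not at hcon
    exact hw (funext hcon)
  constructor
  · intro j hj
    have h1 := hz (l, Sum.inr j)
    rw [baseGen_inr, if_neg hj, map_mul, map_pow, aeval_X, aeval_X] at h1
    exact (mul_eq_zero.1 h1).resolve_left (pow_ne_zero _ hl)
  · intro G hG
    have h1 := hz (l, Sum.inl ⟨G, hG⟩)
    rw [baseGen_inl, map_mul, map_pow, aeval_X, aeval_rename] at h1
    exact (mul_eq_zero.1 h1).resolve_left (pow_ne_zero _ hl)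

theorem baseGen_ext0' {n M : ℕ} (h : n ≤ M) (T : Finset (MvPolynomial (Fin (n + 1)) K))
    (dg : T → ℕ) (e : ℕ) (v : Fin (n + 1) → A) (hv : ∀ G ∈ T, aeval v G = 0)
    (c : Fin (2 * M + 1 + 1) × (T ⊕ Fin (2 * M + 1 + 1))) :
    aeval (ext0 M v) (baseGen h T dg e c) = 0 := by
  obtain ⟨l, G | j⟩ := c
  · rw [baseGen_inl, map_mul, aeval_rename]
    have h1 : ext0 M v ∘ incl h = v := funext fun i => ext0_incl h v i
    rw [h1, hv G.1 G.2, mul_zero]
  · rw [baseGen_inr]
    split_ifs with hj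
    · exact map_zero _
    · rw [map_mul, aeval_X, ext0_zero v j hj, mul_zero]

/-- Finitely many of the equations suffice. -/
theorem exists_finite_subset' {n : ℕ} (S : Set (MvPolynomial (Fin (n + 1)) K)) :
    ∃ T : Finset (MvPolynomial (Fin (n + 1)) K), (T : Set (MvPolynomial (Fin (n + 1)) K)) ⊆ S ∧
      ∀ (R : Type) [CommRing R] [Algebra K R] (v : Fin (n + 1) → R),
        (∀ F ∈ T, aeval v F = 0) → ∀ F ∈ S, aeval v F = 0 := by
  obtain ⟨T, hT, hspan⟩ := (Submodule.fg_span_iff_fg_span_finset_subset S).1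
    (IsNoetherian.noetherian (Submodule.span (MvPolynomial (Fin (n + 1)) K) S))
  refine ⟨T, hT, fun R _ _ v h F hF => ?_⟩
  have h1 : F ∈ Ideal.span (T : Set (MvPolynomial (Fin (n + 1)) K)) := by
    have h2 : F ∈ Submodule.span (MvPolynomial (Fin (n + 1)) K) S := Submodule.subset_span hF
    rw [hspan] at h2
    exact h2
  have h3 : Ideal.span (T : Set (MvPolynomial (Fin (n + 1)) K)) ≤
      RingHom.ker (aeval v : MvPolynomial (Fin (n + 1)) K →ₐ[K] R) := by
    rw [Ideal.span_le]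
    intro G hG
    exact h G hG
  exact h3 h1

/-- A tuple of polynomials is a multiple of a tuple without common factor. -/
theorem exists_primitive {Ω : Type*} [Field Ω] {n : ℕ} (g : Fin (n + 1) → Polynomial Ω)
    (hg : g ≠ 0) : ∃ (h : Polynomial Ω) (g' : Fin (n + 1) → Polynomial Ω), h ≠ 0 ∧
      (∀ i, g i = h * g' i) ∧ Ideal.span (Set.range g') = ⊤ := by
  obtain ⟨h, hh⟩ := IsPrincipalIdealRing.principal (Ideal.span (Set.range g))
  have hh' : Ideal.span (Set.range g) = Ideal.span {h} := hh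
  have h1 : ∀ i, h ∣ g i := by
    intro i
    rw [← Ideal.mem_span_singleton, ← hh']
    exact Ideal.subset_span ⟨i, rfl⟩
  choose g' hg' using h1
  have hh0 : h ≠ 0 := by
    rintro rfl
    apply hg
    funext i
    rw [hg', zero_mul]
    rfl
  refine ⟨h, g', hh0, hg', ?_⟩
  have h2 : h ∈ Ideal.span (Set.range g) := by
    rw [hh']
    exact Ideal.mem_span_singleton_self h
  obtain ⟨u, hu⟩ := (Submodule.mem_span_range_iff_exists_fun (Polynomial Ω)).1 h2
  rw [Ideal.eq_top_iff_one]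
  have h3 : ∑ i, u i • g' i = 1 := by
    apply mul_left_cancel₀ hh0
    rw [mul_one]
    conv_rhs => rw [← hu]
    rw [Finset.mul_sum]
    refine Finset.sum_congr rfl fun i _ => ?_
    rw [smul_eq_mul, smul_eq_mul, hg' i]
    ring
  rw [← h3]
  exact sum_mem fun i _ => Ideal.mul_mem_left _ _ (Ideal.subset_span ⟨i, rfl⟩)

end aux

section forms

variable {K : Type*} [Field K] {N q c : ℕ}

/-- The form `∑_j (∑_s τ_j^s m_s) (∑_a τ_j^a x_a)^k`. -/
noncomputable def mixForm (k : ℕ) (τ : Fin q → ℚ) (m : Fin c → MvPolynomial (Fin (N + 1)) K) :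
    MvPolynomial (Fin (N + 1)) K :=
  ∑ j, (∑ s : Fin c, C ((τ j : K) ^ (s : ℕ)) * m s) *
    (∑ a : Fin (N + 1), C ((τ j : K) ^ (a : ℕ)) * X a) ^ k

theorem mixForm_homogeneous (k : ℕ) (τ : Fin q → ℚ) (m : Fin c → MvPolynomial (Fin (N + 1)) K)
    {e : ℕ} (hm : ∀ i, (m i).IsHomogeneous e) : (mixForm k τ m).IsHomogeneous (e + k) := by
  unfold mixForm
  apply IsHomogeneous.sum
  intro j _
  apply IsHomogeneous.mul
  · apply IsHomogeneous.sum
    intro s _
    have h1 := (isHomogeneous_C (Fin (N + 1)) ((τ j : K) ^ (s : ℕ))).mul (hm s)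
    rwa [zero_add] at h1
  · have h1 : (∑ a : Fin (N + 1), C ((τ j : K) ^ (a : ℕ)) * X a :
        MvPolynomial (Fin (N + 1)) K).IsHomogeneous 1 := by
      apply IsHomogeneous.sum
      intro a _
      have h1 := (isHomogeneous_C (Fin (N + 1)) ((τ j : K) ^ (a : ℕ))).mul (isHomogeneous_X K a)
      rwa [zero_add] at h1
    have h2 := h1.pow k
    rwa [one_mul] at h2

theorem aeval_mixForm (k : ℕ) (τ : Fin q → ℚ) (m : Fin c → MvPolynomial (Fin (N + 1)) K)
    {Ω : Type*} [Field Ω] [Algebra K Ω] (g : Fin (N + 1) → Polynomial Ω) :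
    aeval g (mixForm k τ m) =
      ∑ j, (∑ s : Fin c, aeval g (m s) * Polynomial.C ((τ j : Ω) ^ (s : ℕ))) *
        (∑ a : Fin (N + 1), g a * Polynomial.C ((τ j : Ω) ^ (a : ℕ))) ^ k := by
  unfold mixForm
  have e1 : ∀ (x : ℚ) (i : ℕ), algebraMap K (Polynomial Ω) ((x : K) ^ i) =
      Polynomial.C ((x : Ω) ^ i) := by
    intro x i
    rw [IsScalarTower.algebraMap_apply K Ω (Polynomial Ω), Polynomial.algebraMap_eq, map_pow,
      map_ratCast]
  simp only [map_sum, map_mul, map_pow, aeval_C, aeval_X]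
  refine Finset.sum_congr rfl fun j _ => ?_
  congr 1
  · refine Finset.sum_congr rfl fun s _ => ?_
    rw [← map_pow, e1, mul_comm, Polynomial.C_pow]
  · congr 1
    refine Finset.sum_congr rfl fun a _ => ?_
    rw [← map_pow, e1, mul_comm, Polynomial.C_pow]

end forms

end Pool.Agent.Work.MP_fcfa67_h90
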