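import Pool.Agent.Work.MP_fcfa67_h90.Curve

/-!
# Nonconstant polynomial curves in hypersurfaces `∑ M_j G_j ^ k = 0`
-/

open Polynomial Pool.Agent.Work.MP_f82ddf_nt

namespace Pool.Agent.Work.MP_fcfa67_h90

variable {K : Type*} [Field K]

/-- The relation `Rel` propagates along walks. -/
theorem rel_of_walk {J : Type*} (Γ : SimpleGraph J) (G : J → K[X]) (w D : ℕ)
    (h : ∀ i j, Γ.Adj i j → Rel w D (G i) (G j)) {i j : J} (p : Γ.Walk i j) :
    Rel w (p.length * D) (G i) (G j) := by
  induction p with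
  | nil => exact Rel.refl _
  | @cons u v t hadj p ih =>
    have h1 := (h u v hadj).trans ih
    refine h1.mono le_rfl (le_of_eq ?_)
    rw [SimpleGraph.Walk.length_cons]
    ring

open Classical in
/-- Primitive curves satisfying a relation between many terms, most of which do not vanish, are
constant. -/
theorem curve_const [CharZero K] {N q x d E e δ k : ℕ} (τ : Fin q → ℚ) (hτ : GenPts N q τ)
    (g : Fin (N + 1) → K[X]) (hg : Ideal.span (Set.range g) = ⊤)
    (hgδ : ∀ a, (g a).natDegree ≤ δ) (b : Fin (N + 1)) (hb : (g b).natDegree = δ) (hδ : 0 < δ)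
    (M : Fin q → K[X]) (hM : ∀ j, (M j).natDegree ≤ E) (hE : E ≤ e * δ)
    (hM0 : q ≤ (Finset.univ.filter fun j => M j ≠ 0).card + d)
    (M' G' : Fin x → K[X]) (hM' : ∀ j, (M' j).natDegree ≤ E) (hG' : ∀ j, (G' j).natDegree ≤ δ)
    (hq : d + N + 3 * ((N + 1) * (N + 1) + x) ≤ q)
    (hk : (q + x) + N * ((q + x) * (2 ^ (q + x) * (e + 2))) < k)
    (hsum : ∑ j, M j * (∑ a, g a * C ((τ j : K) ^ (a : ℕ))) ^ k + ∑ i, M' i * G' i ^ k = 0) :
    False := by
  classical
  set L : Fin q → K[X] := fun j => ∑ a, g a * C ((τ j : K) ^ (a : ℕ)) with hL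
  set MM : Fin q ⊕ Fin x → K[X] := Sum.elim M M' with hMM
  set GG : Fin q ⊕ Fin x → K[X] := Sum.elim L G' with hGG
  set s : Finset (Fin q ⊕ Fin x) := Finset.univ.filter fun i => MM i * GG i ≠ 0 with hs
  have hg0 : g ≠ 0 := by
    intro h0
    rw [h0] at hb
    rw [Pi.zero_apply, natDegree_zero] at hb
    omega
  have hk0 : k ≠ 0 := by omega
  have hsum' : ∑ i ∈ s, MM i * GG i ^ k = 0 := by
    rw [hs, Finset.sum_filter]
    have h1 : ∀ i : Fin q ⊕ Fin x, (if MM i * GG i ≠ 0 then MM i * GG i ^ k else 0) =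
        MM i * GG i ^ k := by
      intro i
      split_ifs with h
      · rfl
      · push Not at h
        rcases mul_eq_zero.1 h with h2 | h2
        · rw [h2, zero_mul]
        · rw [h2, zero_pow hk0, mul_zero]
    simp only [h1]
    rw [Fintype.sum_sum_type]
    exact hsum
  have hLδ : ∀ j, (L j).natDegree ≤ δ := fun j => natDegree_sum_C g _ hgδ
  have hcard : s.card ≤ q + x := by
    have := Finset.card_le_univ s
    simpa using this
  have hel := elim δ GG (q + x) E k s MM hcard (by omega)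
    (fun i hi => left_ne_zero_of_mul (Finset.mem_filter.1 hi).2)
    (fun i hi => right_ne_zero_of_mul (Finset.mem_filter.1 hi).2)
    (by
      rintro (j | j) _
      · exact hM j
      · exact hM' j)
    (by
      rintro (j | j) _
      · exact hLδ j
      · exact hG' j)
    hsum'
  set D := 2 ^ (q + x) * (E + 2 * δ) with hD
  set w := k - (q + x) with hw
  let Γ : SimpleGraph (Fin q ⊕ Fin x) :=
    { Adj := fun i j => i ≠ j ∧ Rel w D (GG i) (GG j)
      symm := ⟨fun i j h => ⟨h.1.symm, h.2.symm⟩⟩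
      loopless := ⟨fun i h => h.1 rfl⟩ }
  have hreach : ∀ i j, Γ.Reachable i j → Rel w ((q + x) * D) (GG i) (GG j) := by
    intro i j hij
    obtain ⟨p⟩ := hij
    have h1 := p.toPath.2.length_lt
    have h2 := rel_of_walk Γ GG w D (fun i j h => h.2) (p.toPath : Γ.Walk i j)
    refine h2.mono le_rfl (Nat.mul_le_mul_right _ ?_)
    rw [Fintype.card_sum, Fintype.card_fin, Fintype.card_fin] at h1
    exact h1.le
  have hmain : q ≤ (Finset.univ.filter fun j => M j * L j ≠ 0).card + (d + N) := by
    have h1 : (Finset.univ.filter fun j => L j = 0).card ≤ N :=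
      card_zeros τ hτ.1 g hg0 _ fun j hj => (Finset.mem_filter.1 hj).2
    have h2 : (Finset.univ.filter fun j => M j ≠ 0) ⊆
        (Finset.univ.filter fun j => M j * L j ≠ 0) ∪ (Finset.univ.filter fun j => L j = 0) := by
      intro j hj
      rw [Finset.mem_filter] at hj
      rw [Finset.mem_union, Finset.mem_filter, Finset.mem_filter]
      by_cases h : L j = 0
      · exact Or.inr ⟨Finset.mem_univ _, h⟩
      · exact Or.inl ⟨Finset.mem_univ _, mul_ne_zero hj.2 h⟩
    have h3 := (Finset.card_le_card h2).trans (Finset.card_union_le _ _)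
    omega
  have hscard : 3 * ((N + 1) * (N + 1) + x) ≤ s.card := by
    have h1 : (Finset.univ.filter fun j => M j * L j ≠ 0).card ≤ s.card := by
      rw [← Finset.card_map (Function.Embedding.inl : Fin q ↪ Fin q ⊕ Fin x)]
      apply Finset.card_le_card
      intro i hi
      rw [Finset.mem_map] at hi
      obtain ⟨j, hj, rfl⟩ := hi
      rw [Finset.mem_filter] at hj
      rw [hs, Finset.mem_filter]
      exact ⟨Finset.mem_univ _, hj.2⟩
    omega
  obtain ⟨μ, hμi, hμs, hμr⟩ := exists_matching (fun i j => Γ.Reachable i j)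
    (fun i j h => h.symm) (fun i j l h h' => h.trans h') ((N + 1) * (N + 1) + x) s
    (by
      intro i hi
      obtain ⟨j, hj, hji, hrel⟩ := hel i hi
      refine ⟨j, hj, hji, SimpleGraph.Adj.reachable ?_⟩
      exact ⟨hji.symm, hrel⟩) hscard
  -- the pairs which do not involve the additional terms
  set bad : Finset (Fin ((N + 1) * (N + 1) + x)) := Finset.univ.filter fun y =>
    (∃ i, μ (Sum.inl y) = Sum.inr i) ∨ ∃ i, μ (Sum.inr y) = Sum.inr i with hbad
  have hbadcard : bad.card ≤ x := by
    have hch : ∀ y : bad, ∃ i : Fin x, μ (Sum.inl y) = Sum.inr i ∨ μ (Sum.inr y) = Sum.inr i := by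
      rintro ⟨y, hy⟩
      rw [hbad, Finset.mem_filter] at hy
      rcases hy.2 with ⟨i, hi⟩ | ⟨i, hi⟩
      · exact ⟨i, Or.inl hi⟩
      · exact ⟨i, Or.inr hi⟩
    choose f hf using hch
    have hfi : Function.Injective f := by
      intro y z hyz
      have h1 := hf y
      have h2 := hf z
      rw [hyz] at h1
      apply Subtype.ext
      rcases h1 with h1 | h1 <;> rcases h2 with h2 | h2
      · exact Sum.inl.inj (hμi (h1.trans h2.symm))
      · exact absurd (hμi (h1.trans h2.symm)) (by simp)
      · exact absurd (hμi (h1.trans h2.symm)) (by simp)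
      · exact Sum.inr.inj (hμi (h1.trans h2.symm))
    have := Fintype.card_le_of_injective f hfi
    simpa using this
  have hgood : (N + 1) * (N + 1) ≤ (Finset.univ \ bad).card := by
    rw [Finset.card_sdiff_of_subset (Finset.subset_univ _), Finset.card_univ, Fintype.card_fin]
    omega
  obtain ⟨f, hfi, hfg⟩ : ∃ f : Fin ((N + 1) * (N + 1)) → Fin ((N + 1) * (N + 1) + x),
      Function.Injective f ∧ ∀ i, f i ∈ Finset.univ \ bad := by
    obtain ⟨s', hs', hc⟩ := Finset.exists_subset_card_eq hgood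
    refine ⟨fun i => (s'.equivFinOfCardEq hc).symm i, ?_, fun i => hs' ?_⟩
    · intro a c hac
      exact (s'.equivFinOfCardEq hc).symm.injective (Subtype.ext hac)
    · exact ((s'.equivFinOfCardEq hc).symm i).2
  have hgl : ∀ y, ∃ j : Fin q, μ (Sum.inl (f y)) = Sum.inl j := by
    intro y
    have h1 := hfg y
    rw [hbad, Finset.mem_sdiff, Finset.mem_filter] at h1
    rcases h2 : μ (Sum.inl (f y)) with j | i
    · exact ⟨j, rfl⟩
    · exact absurd ⟨Finset.mem_univ _, Or.inl ⟨i, h2⟩⟩ h1.2
  have hgr : ∀ y, ∃ j : Fin q, μ (Sum.inr (f y)) = Sum.inl j := by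
    intro y
    have h1 := hfg y
    rw [hbad, Finset.mem_sdiff, Finset.mem_filter] at h1
    rcases h2 : μ (Sum.inr (f y)) with j | i
    · exact ⟨j, rfl⟩
    · exact absurd ⟨Finset.mem_univ _, Or.inr ⟨i, h2⟩⟩ h1.2
  choose jl hjl using hgl
  choose jr hjr using hgr
  refine general_pairs τ hτ (Sum.elim jl jr) ?_ g hg w ((q + x) * D) ?_ b ?_
  · rintro (y | y) (z | z) h
    · have h1 : μ (Sum.inl (f y)) = μ (Sum.inl (f z)) := by
        rw [hjl, hjl]
        exact congrArg Sum.inl h
      exact congrArg Sum.inl (hfi (Sum.inl.inj (hμi h1)))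
    · have h1 : μ (Sum.inl (f y)) = μ (Sum.inr (f z)) := by
        rw [hjl, hjr]
        exact congrArg Sum.inl h
      exact absurd (hμi h1) (by simp)
    · have h1 : μ (Sum.inr (f y)) = μ (Sum.inl (f z)) := by
        rw [hjl, hjr]
        exact congrArg Sum.inl h
      exact absurd (hμi h1) (by simp)
    · have h1 : μ (Sum.inr (f y)) = μ (Sum.inr (f z)) := by
        rw [hjr, hjr]
        exact congrArg Sum.inl h
      exact congrArg Sum.inr (hfi (Sum.inr.inj (hμi h1)))
  · intro r
    have h1 := hreach _ _ (hμr (f r))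
    rw [hjl, hjr] at h1
    exact h1
  · rw [hb]
    have h1 : D ≤ 2 ^ (q + x) * (e + 2) * δ := by
      rw [hD, mul_assoc]
      apply Nat.mul_le_mul_left
      rw [add_mul]
      omega
    calc N * ((q + x) * D) ≤ N * ((q + x) * (2 ^ (q + x) * (e + 2) * δ)) :=
          Nat.mul_le_mul_left _ (Nat.mul_le_mul_left _ h1)
      _ = N * ((q + x) * (2 ^ (q + x) * (e + 2))) * δ := by ring
      _ < w * δ := by
        apply Nat.mul_lt_mul_of_pos_right _ hδ
        omega

end Pool.Agent.Work.MP_fcfa67_h90
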