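import Pool.Agent.Work.MP_fcfa67_h90.Hyper

/-!
# Restriction of scalars on an affine chart
-/

open MvPolynomial Pool.Agent.Work.MP_f82ddf_nt

namespace Pool.Agent.Work.MP_fcfa67_h90

section basis

variable (k K : Type) [Field k] [Field K] [Algebra k K] [FiniteDimensional k K]
  [Algebra.IsSeparable k K]

theorem exists_basis_trace : ∃ (B : Module.Basis (Fin (Module.finrank k K)) k K)
    (c : Fin (Module.finrank k K) → K), ∀ x i, B.repr x i = Algebra.trace k K (x * c i) := by
  classical
  have hB := traceForm_nondegenerate k K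
  refine ⟨(Algebra.traceForm k K).dualBasis hB (Module.finBasis k K), Module.finBasis k K,
    fun x i => ?_⟩
  rw [LinearMap.BilinForm.dualBasis_repr_apply, Algebra.traceForm_apply]

end basis

section comp

variable {k K : Type} [Field k] [Field K] [Algebra k K] {d : ℕ}
  (B : Module.Basis (Fin d) k K) {σ : Type}

/-- The component of a polynomial with respect to a basis of the field of coefficients. -/
noncomputable def comp (b : Fin d) (Q : MvPolynomial σ K) : MvPolynomial σ k :=
  ∑ m ∈ Q.support, monomial m (B.repr (coeff m Q) b)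

theorem comp_homogeneous (b : Fin d) {Q : MvPolynomial σ K} {e : ℕ} (hQ : Q.IsHomogeneous e) :
    (comp B b Q).IsHomogeneous e := by
  unfold comp
  apply IsHomogeneous.sum
  intro m hm
  apply isHomogeneous_monomial
  have h1 := hQ (mem_support_iff.1 hm)
  rw [Finsupp.degree_eq_weight_one]
  exact h1

theorem comp_eval {A R : Type} [CommRing A] [Algebra k A] [CommRing R] [Algebra K R]
    (f : A →+* R) (hf : ∀ c : k, f (algebraMap k A c) = algebraMap K R (algebraMap k K c))
    (y : σ → A) (Q : MvPolynomial σ K) :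
    aeval (fun i => f (y i)) Q = ∑ b, algebraMap K R (B b) * f (aeval y (comp B b Q)) := by
  classical
  have h1 : ∀ b, f (aeval y (comp B b Q)) = ∑ m ∈ Q.support,
      algebraMap K R (algebraMap k K (B.repr (coeff m Q) b)) * m.prod fun i e => f (y i) ^ e := by
    intro b
    unfold comp
    rw [map_sum, map_sum]
    refine Finset.sum_congr rfl fun m _ => ?_
    rw [aeval_monomial, map_mul, hf, Finsupp.prod, map_prod]
    simp only [map_pow]
    rfl
  simp only [h1, Finset.mul_sum]
  rw [Finset.sum_comm]
  conv_lhs => rw [Q.as_sum]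
  rw [map_sum]
  refine Finset.sum_congr rfl fun m _ => ?_
  rw [aeval_monomial]
  have h2 : algebraMap K R (coeff m Q) =
      ∑ b, algebraMap K R (B b) * algebraMap K R (algebraMap k K (B.repr (coeff m Q) b)) := by
    conv_lhs => rw [← B.sum_repr (coeff m Q)]
    rw [map_sum]
    refine Finset.sum_congr rfl fun b _ => ?_
    rw [Algebra.smul_def, map_mul, mul_comm]
  rw [h2, Finset.sum_mul]
  refine Finset.sum_congr rfl fun b _ => ?_
  ring

theorem basis_indep_field {a : Fin d → k} (h : ∑ b, B b * algebraMap k K (a b) = 0) (b : Fin d) :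
    a b = 0 := by
  have h1 : ∑ b, a b • B b = 0 := by
    rw [← h]
    refine Finset.sum_congr rfl fun b _ => ?_
    rw [Algebra.smul_def, mul_comm]
  exact Fintype.linearIndependent_iff.1 B.linearIndependent a h1 b

theorem basis_indep_poly {a : Fin d → Polynomial k}
    (h : ∑ b, Polynomial.C (B b) * Polynomial.map (algebraMap k K) (a b) = 0) (b : Fin d) :
    a b = 0 := by
  ext n
  rw [Polynomial.coeff_zero]
  apply basis_indep_field B (a := fun b => (a b).coeff n)
  have h1 := congrArg (fun p => Polynomial.coeff p n) h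
  simp only [Polynomial.finsetSum_coeff, Polynomial.coeff_C_mul, Polynomial.coeff_map,
    Polynomial.coeff_zero] at h1
  exact h1

end comp

section model

variable {k K : Type} [Field k] [Field K] [Algebra k K] {d : ℕ}
  (B : Module.Basis (Fin d) k K) {n : ℕ}

/-- The enumeration of the coordinates. -/
noncomputable def idx (n d : ℕ) : Option (Fin (n + 1) × Fin d) ≃ Fin ((n + 1) * d + 1) :=
  (Equiv.optionCongr finProdFinEquiv).trans (finSuccEquiv _).symm

theorem idx_none (n d : ℕ) : idx n d none = 0 := rfl

/-- The linear forms `x_i = ∑_a B_a y_{i, a}`. -/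
noncomputable def xf (i : Fin (n + 1)) : MvPolynomial (Fin ((n + 1) * d + 1)) K :=
  ∑ a, C (B a) * X (idx n d (some (i, a)))

theorem xf_homogeneous (i : Fin (n + 1)) : (xf B i).IsHomogeneous 1 := by
  unfold xf
  apply IsHomogeneous.sum
  intro a _
  have := (isHomogeneous_C (Fin ((n + 1) * d + 1)) (B a)).mul
    (isHomogeneous_X K (idx n d (some (i, a))))
  rwa [zero_add] at this

theorem aeval_xf_homogeneous {F : MvPolynomial (Fin (n + 1)) K} {e : ℕ} (hF : F.IsHomogeneous e) :
    (aeval (xf B) F).IsHomogeneous e := by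
  have := hF.aeval (φ := F) (n := 1) (xf B) (xf_homogeneous B)
  rwa [one_mul] at this

/-- The equations over `k`. -/
def SRes (S : Set (MvPolynomial (Fin (n + 1)) K)) (i₀ : Fin (n + 1)) :
    Set (MvPolynomial (Fin ((n + 1) * d + 1)) k) :=
  {P | (∃ b, P = comp B b (xf B i₀ - X (idx n d none))) ∨
    ∃ F ∈ S, ∃ b, P = comp B b (aeval (xf B) F)}

theorem SRes_homogeneous {S : Set (MvPolynomial (Fin (n + 1)) K)}
    (hS : ∀ F ∈ S, ∃ e, F.IsHomogeneous e) (i₀ : Fin (n + 1)) :
    ∀ P ∈ SRes B S i₀, ∃ e, P.IsHomogeneous e := by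
  rintro P (⟨b, rfl⟩ | ⟨F, hF, b, rfl⟩)
  · exact ⟨1, comp_homogeneous B b ((xf_homogeneous B i₀).sub (isHomogeneous_X _ _))⟩
  · obtain ⟨e, he⟩ := hS F hF
    exact ⟨e, comp_homogeneous B b (aeval_xf_homogeneous B he)⟩

/-- Curves over `k` on the restriction of scalars give curves over `K`. -/
theorem curve_descend {S : Set (MvPolynomial (Fin (n + 1)) K)} {i₀ : Fin (n + 1)}
    (h : HasRationalCurve (SRes B S i₀) {X 0}) : HasRationalCurve S {X i₀} := by
  classical
  obtain ⟨y, hyn, hyS, P, hP0, hP⟩ := h
  rw [Set.mem_singleton_iff.1 hP0, aeval_X, ← idx_none n d] at hP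
  set f : Polynomial k →+* Polynomial K := Polynomial.mapRingHom (algebraMap k K) with hfdef
  have hf : ∀ c : k, f (algebraMap k (Polynomial k) c) =
      algebraMap K (Polynomial K) (algebraMap k K c) := by
    intro c
    rw [hfdef, Polynomial.algebraMap_eq, Polynomial.algebraMap_eq, Polynomial.coe_mapRingHom,
      Polynomial.map_C]
  have hfinj : Function.Injective f := Polynomial.map_injective _ (algebraMap k K).injective
  have hev := fun Q => comp_eval B f hf y Q
  set x : Fin (n + 1) → Polynomial K := fun i => aeval (fun j => f (y j)) (xf B i) with hx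
  have hxF : ∀ F : MvPolynomial (Fin (n + 1)) K,
      aeval (fun j => f (y j)) (aeval (xf B) F) = aeval x F := by
    intro F
    rw [← AlgHom.comp_apply, comp_aeval]
  have hxi : ∀ i, x i = ∑ a, Polynomial.C (B a) * f (y (idx n d (some (i, a)))) := by
    intro i
    rw [hx]
    simp only [xf, map_sum, map_mul, aeval_C, aeval_X, Polynomial.algebraMap_eq]
  have hx0 : x i₀ = f (y (idx n d none)) := by
    have h1 := hev (xf B i₀ - X (idx n d none))
    rw [Finset.sum_eq_zero, map_sub, aeval_X, sub_eq_zero] at h1
    · exact h1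
    · intro b _
      rw [hyS _ (Or.inl ⟨b, rfl⟩), map_zero, mul_zero]
  have hS' : ∀ F ∈ S, aeval x F = 0 := by
    intro F hF
    rw [← hxF, hev]
    refine Finset.sum_eq_zero fun b _ => ?_
    rw [hyS _ (Or.inr ⟨F, hF, b, rfl⟩), map_zero, mul_zero]
  have hy0 : y (idx n d none) ≠ 0 := hP
  refine ⟨x, ?_, hS', X i₀, rfl, ?_⟩
  · rintro ⟨v, h, hvh⟩
    have hfy0 : f (y (idx n d none)) ≠ 0 := fun h0 => hy0 (hfinj (by rw [h0, map_zero]))
    have hv0 : v i₀ ≠ 0 := by
      intro h0
      apply hfy0
      rw [← hx0, hvh, h0, Polynomial.C_0, zero_mul]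
    have hh : ∀ i, x i = Polynomial.C (v i / v i₀) * f (y (idx n d none)) := by
      intro i
      rw [← hx0, hvh i₀, hvh i, ← mul_assoc, ← Polynomial.C_mul, div_mul_cancel₀ _ hv0]
    apply hyn
    refine ⟨fun j => match (idx n d).symm j with
      | none => 1
      | some (i, a) => B.repr (v i / v i₀) a, y (idx n d none), fun j => ?_⟩
    obtain ⟨o, rfl⟩ := (idx n d).surjective j
    simp only [Equiv.symm_apply_apply]
    rcases o with _ | ⟨i, a⟩
    · simp
    · simp only
      have h2 : ∑ a, Polynomial.C (B a) * Polynomial.map (algebraMap k K)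
          (y (idx n d (some (i, a))) -
            Polynomial.C (B.repr (v i / v i₀) a) * y (idx n d none)) = 0 := by
        have h3 : Polynomial.C (v i / v i₀) =
            ∑ a, Polynomial.C (B a) * Polynomial.C (algebraMap k K (B.repr (v i / v i₀) a)) := by
          conv_lhs => rw [← B.sum_repr (v i / v i₀)]
          rw [map_sum]
          refine Finset.sum_congr rfl fun b _ => ?_
          rw [Algebra.smul_def, Polynomial.C_mul, mul_comm]
        have h4 := hh i
        rw [hxi, h3, Finset.sum_mul, ← sub_eq_zero, ← Finset.sum_sub_distrib] at h4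
        rw [← h4]
        refine Finset.sum_congr rfl fun a _ => ?_
        rw [Polynomial.map_sub, Polynomial.map_mul, Polynomial.map_C, hfdef,
          Polynomial.coe_mapRingHom]
        ring
      have h3 := basis_indep_poly B h2 a
      exact sub_eq_zero.1 h3
  · rw [aeval_X, hx0]
    exact fun h0 => hy0 (hfinj (by rw [h0, map_zero]))

end model

end Pool.Agent.Work.MP_fcfa67_h90
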